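import Pool.Agent.Lib.MP_5d8e72_nt.Defs

/-!
# MP_5d8e72_nt: the multiplicative function `c` with `c * c = 1`, `c(q^k) = binom(2k, k) / 4^k`
-/

set_option autoImplicit false

open Filter Topology Finset

namespace Pool.Agent.Lib.MP_5d8e72_nt

open scoped ArithmeticFunction

theorem conv_centralBinom (n : ℕ) :
    ∑ ij ∈ Finset.HasAntidiagonal.antidiagonal n, (Nat.centralBinom ij.1 : ℝ) * (Nat.centralBinom ij.2 : ℝ) = 4 ^ n := by
  induction n with
  | zero => simp
  | succ n ih =>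
    have hsym : ∀ m : ℕ, ∑ ij ∈ Finset.HasAntidiagonal.antidiagonal m,
        (ij.1 : ℝ) * ((Nat.centralBinom ij.1 : ℝ) * (Nat.centralBinom ij.2 : ℝ)) =
        ∑ ij ∈ Finset.HasAntidiagonal.antidiagonal m,
        (ij.2 : ℝ) * ((Nat.centralBinom ij.1 : ℝ) * (Nat.centralBinom ij.2 : ℝ)) := by
      intro m
      rw [← Finset.Nat.sum_antidiagonal_swap]
      refine Finset.sum_congr rfl fun ij _ => ?_
      simp only [Prod.fst_swap, Prod.snd_swap]
      ring
    have htwo : ∀ m : ℕ, 2 * ∑ ij ∈ Finset.HasAntidiagonal.antidiagonal m,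
        (ij.1 : ℝ) * ((Nat.centralBinom ij.1 : ℝ) * (Nat.centralBinom ij.2 : ℝ)) =
        (m : ℝ) * ∑ ij ∈ Finset.HasAntidiagonal.antidiagonal m,
          (Nat.centralBinom ij.1 : ℝ) * (Nat.centralBinom ij.2 : ℝ) := by
      intro m
      rw [two_mul]
      nth_rewrite 2 [hsym m]
      rw [← Finset.sum_add_distrib, Finset.mul_sum]
      refine Finset.sum_congr rfl fun ij hij => ?_
      rw [Finset.HasAntidiagonal.mem_antidiagonal] at hij
      rw [← hij]
      push_cast
      ring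
    have h1 := htwo (n + 1)
    have h2 := htwo n
    rw [Finset.Nat.sum_antidiagonal_succ] at h1
    simp only [Nat.cast_zero, zero_mul, zero_add] at h1
    have h3 : ∑ ij ∈ Finset.HasAntidiagonal.antidiagonal n, (((ij.1 + 1 : ℕ) : ℝ)) *
        ((Nat.centralBinom (ij.1 + 1) : ℝ) * (Nat.centralBinom ij.2 : ℝ)) =
        2 * (2 * ∑ ij ∈ Finset.HasAntidiagonal.antidiagonal n,
        (ij.1 : ℝ) * ((Nat.centralBinom ij.1 : ℝ) * (Nat.centralBinom ij.2 : ℝ))) +
        2 * ∑ ij ∈ Finset.HasAntidiagonal.antidiagonal n,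
          (Nat.centralBinom ij.1 : ℝ) * (Nat.centralBinom ij.2 : ℝ) := by
      rw [Finset.mul_sum, Finset.mul_sum, Finset.mul_sum, ← Finset.sum_add_distrib]
      refine Finset.sum_congr rfl fun ij _ => ?_
      have h4 := Nat.succ_mul_centralBinom_succ ij.1
      have h5 : ((ij.1 + 1 : ℕ) : ℝ) * (Nat.centralBinom (ij.1 + 1) : ℝ) =
          2 * (2 * (ij.1 : ℝ) + 1) * (Nat.centralBinom ij.1 : ℝ) := by
        exact_mod_cast h4
      rw [← mul_assoc, h5]
      ring
    rw [h3, h2, ih] at h1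
    have h6 : ((n : ℝ) + 1) ≠ 0 := by positivity
    have h7 : ((n : ℝ) + 1) * ∑ ij ∈ Finset.HasAntidiagonal.antidiagonal (n + 1),
        (Nat.centralBinom ij.1 : ℝ) * (Nat.centralBinom ij.2 : ℝ) = ((n : ℝ) + 1) * 4 ^ (n + 1) := by
      push_cast at h1
      rw [← h1]
      ring
    exact mul_left_cancel₀ h6 h7

/-- the function `c` -/
noncomputable def ca : ArithmeticFunction ℝ :=
  ⟨fun n => if n = 0 then 0 else n.factorization.prod (fun _ k => (Nat.centralBinom k : ℝ) / 4 ^ k),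
    by simp⟩

theorem ca_apply {n : ℕ} (hn : n ≠ 0) :
    ca n = n.factorization.prod (fun _ k => (Nat.centralBinom k : ℝ) / 4 ^ k) := by
  show (if n = 0 then 0 else n.factorization.prod (fun _ k => (Nat.centralBinom k : ℝ) / 4 ^ k)) = _
  rw [if_neg hn]

theorem ca_one : ca 1 = 1 := by
  rw [ca_apply one_ne_zero]
  simp

theorem ca_mult : ca.IsMultiplicative := by
  rw [ArithmeticFunction.IsMultiplicative.iff_ne_zero]
  refine ⟨ca_one, ?_⟩
  intro m n hm hn hmn
  rw [ca_apply (mul_ne_zero hm hn), ca_apply hm, ca_apply hn, Nat.factorization_mul_of_coprime hmn,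
    Finsupp.prod_add_index_of_disjoint]
  exact Nat.Coprime.disjoint_primeFactors hmn

theorem ca_pow {q : ℕ} (hq : q.Prime) (k : ℕ) : ca (q ^ k) = (Nat.centralBinom k : ℝ) / 4 ^ k := by
  rw [ca_apply (pow_ne_zero k hq.ne_zero), hq.factorization_pow]
  rw [Finsupp.prod_single_index]
  simp

theorem ca_nonneg (n : ℕ) : 0 ≤ ca n := by
  by_cases hn : n = 0
  · subst hn; simp
  · rw [ca_apply hn]
    exact Finset.prod_nonneg (fun _ _ => by positivity)

theorem ca_mul_ca : ca * ca = (ArithmeticFunction.zeta : ArithmeticFunction ℝ) := by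
  have h1 : (ca * ca).IsMultiplicative := ca_mult.mul ca_mult
  have h2 : (ArithmeticFunction.zeta : ArithmeticFunction ℝ).IsMultiplicative :=
    ArithmeticFunction.isMultiplicative_zeta.natCast
  rw [h1.eq_iff_eq_on_prime_powers _ _ h2]
  intro q k hq
  rw [ArithmeticFunction.natCoe_apply, ArithmeticFunction.zeta_apply_ne (pow_ne_zero k hq.ne_zero),
    ArithmeticFunction.mul_apply, Nat.sum_divisorsAntidiagonal (fun a b => ca a * ca b),
    Nat.divisors_prime_pow hq, Finset.sum_map]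
  have h3 : ∀ i ∈ Finset.range (k + 1), ca ((⟨(q ^ ·), Nat.pow_right_injective hq.two_le⟩ : ℕ ↪ ℕ) i) *
      ca (q ^ k / (⟨(q ^ ·), Nat.pow_right_injective hq.two_le⟩ : ℕ ↪ ℕ) i) =
      ((Nat.centralBinom i : ℝ) * (Nat.centralBinom (k - i) : ℝ)) / 4 ^ k := by
    intro i hi
    have hik : i ≤ k := Nat.lt_succ_iff.1 (Finset.mem_range.1 hi)
    simp only [Function.Embedding.coeFn_mk]
    rw [Nat.pow_div hik hq.pos, ca_pow hq, ca_pow hq]
    have h4 : (4 : ℝ) ^ k = 4 ^ i * 4 ^ (k - i) := by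
      rw [← pow_add, Nat.add_sub_cancel' hik]
    rw [h4]
    field_simp
  rw [Finset.sum_congr rfl h3, ← Finset.sum_div,
    ← Finset.Nat.sum_antidiagonal_eq_sum_range_succ
      (fun i j => (Nat.centralBinom i : ℝ) * (Nat.centralBinom j : ℝ)), conv_centralBinom]
  have : (4 : ℝ) ^ k ≠ 0 := by positivity
  rw [div_self this]
  simp

theorem sum_ca_ca {n : ℕ} (hn : n ≠ 0) : ∑ x ∈ n.divisorsAntidiagonal, ca x.1 * ca x.2 = 1 := by
  have h := congrArg (fun f : ArithmeticFunction ℝ => f n) ca_mul_ca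
  simp only [ArithmeticFunction.mul_apply, ArithmeticFunction.natCoe_apply,
    ArithmeticFunction.zeta_apply_ne hn, Nat.cast_one] at h
  exact h

theorem ca_le_one (n : ℕ) : ca n ≤ 1 := by
  by_cases hn : n = 0
  · subst hn; simp
  · have h := sum_ca_ca hn
    have h1 : ca (n, 1).1 * ca (n, 1).2 ≤ ∑ x ∈ n.divisorsAntidiagonal, ca x.1 * ca x.2 := by
      refine Finset.single_le_sum (f := fun x : ℕ × ℕ => ca x.1 * ca x.2)
        (fun x _ => mul_nonneg (ca_nonneg _) (ca_nonneg _)) ?_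
      simp [hn]
    rw [h] at h1
    simpa [ca_one] using h1

/-- the function `(c(n) / n)^2` -/
noncomputable def fa : ArithmeticFunction ℝ := ⟨fun n => (ca n / n) ^ 2, by simp⟩

theorem fa_apply (n : ℕ) : fa n = (ca n / n) ^ 2 := rfl

theorem fa_mult : fa.IsMultiplicative := by
  rw [ArithmeticFunction.IsMultiplicative.iff_ne_zero]
  refine ⟨by simp [fa_apply, ca_one], ?_⟩
  intro m n hm hn hmn
  rw [fa_apply, fa_apply, fa_apply, ca_mult.map_mul_of_coprime hmn]
  push_cast
  have h1 : (m : ℝ) ≠ 0 := by exact_mod_cast hm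
  have h2 : (n : ℝ) ≠ 0 := by exact_mod_cast hn
  field_simp

theorem fa_nonneg (n : ℕ) : 0 ≤ fa n := by
  rw [fa_apply]
  positivity

theorem fa_le (n : ℕ) : fa n ≤ 1 / (n : ℝ) ^ 2 := by
  rw [fa_apply, div_pow]
  by_cases hn : n = 0
  · subst hn; simp
  · have h0 : (0 : ℝ) < (n : ℝ) ^ 2 := by
      have : (0 : ℝ) < n := by exact_mod_cast Nat.pos_of_ne_zero hn
      positivity
    rw [div_le_div_iff_of_pos_right h0]
    have h1 := ca_le_one n
    have h2 := ca_nonneg n
    nlinarith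

theorem fa_summable : Summable (fun n => fa n) := by
  refine Summable.of_nonneg_of_le fa_nonneg fa_le ?_
  exact Real.summable_one_div_nat_pow.mpr (by norm_num)

/-- the constant -/
noncomputable def CC : ℝ := ∑' n, fa n

theorem isC_CC : IsC CC := by
  unfold IsC CC
  have h := fa_mult.eulerProduct_hasProd (by
    have h1 := fa_summable
    refine h1.congr ?_
    intro n
    rw [Real.norm_of_nonneg (fa_nonneg n)])
  have h2 : (fun q : Nat.Primes => ∑' e : ℕ, fa ((q : ℕ) ^ e)) =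
      (fun q : Nat.Primes => ∑' k : ℕ, ((Nat.centralBinom k : ℝ) / (4 * (q : ℕ)) ^ k) ^ 2) := by
    funext q
    refine tsum_congr ?_
    intro k
    rw [fa_apply, ca_pow q.2, mul_pow]
    push_cast
    rw [div_div]
  rw [h2] at h
  exact h

/-- the finite sums tend to the constant -/
theorem tendsto_CC : Tendsto (fun N : ℕ => ∑ n ∈ Finset.Icc 1 N, fa n) atTop (𝓝 CC) := by
  have h := fa_summable.hasSum.tendsto_sum_nat
  have h1 := (tendsto_add_atTop_iff_nat 1).2 h
  refine h1.congr ?_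
  intro N
  rw [Finset.range_eq_Ico, Finset.sum_eq_sum_Ico_succ_bot (by omega)]
  have h2 : fa 0 = 0 := by simp [fa_apply]
  rw [h2, zero_add]
  rfl

end Pool.Agent.Lib.MP_5d8e72_nt
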