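import Mathlib

/-!
# MP_5d8e72_nt: definitions
-/

set_option autoImplicit false

open Filter Topology Finset

namespace Pool.Agent.Lib.MP_5d8e72_nt

/-- `S(χ) = ∑ χ(a + a⁻¹)`, the sum over the nonzero residues `a` modulo `p` -/
noncomputable def S (p : ℕ) [Fact p.Prime] (χ : DirichletCharacter ℂ p) : ℂ :=
  ∑ a : (ZMod p)ˣ, χ ((a : ZMod p) + ((a⁻¹ : (ZMod p)ˣ) : ZMod p))

/-- the finite sums `∑_{n ≤ N} χ(n) / n` -/
noncomputable def PS (p : ℕ) (χ : DirichletCharacter ℂ p) (N : ℕ) : ℂ :=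
  ∑ n ∈ Finset.Icc 1 N, χ (n : ZMod p) / (n : ℂ)

/-- `L(1, χ)`, the limit of the finite sums -/
noncomputable def L1 (p : ℕ) (χ : DirichletCharacter ℂ p) : ℂ := limUnder atTop (PS p χ)

open Classical in
/-- `M_m(p)` -/
noncomputable def M (m p : ℕ) [Fact p.Prime] : ℝ :=
  (∑ χ ∈ (Finset.univ : Finset (DirichletCharacter ℂ p)).filter (fun χ => χ ≠ 1),
    ‖S p χ‖ ^ (2 * m) * ‖L1 p χ‖) / (p : ℝ) ^ (m + 1)

instance primesFact (q : Nat.Primes) : Fact (q : ℕ).Prime := ⟨q.2⟩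

/-- the filter `p → ∞`, `p` prime -/
def PF : Filter Nat.Primes := Filter.comap (fun q : Nat.Primes => (q : ℕ)) Filter.atTop

/-- `C` is the product over the primes `q` of `∑_{k ≥ 0} (binom(2k, k) / (4 q)^k) ^ 2` -/
def IsC (C : ℝ) : Prop :=
  HasProd (fun q : Nat.Primes => ∑' k : ℕ, ((Nat.centralBinom k : ℝ) / (4 * (q : ℕ)) ^ k) ^ 2) C

end Pool.Agent.Lib.MP_5d8e72_nt
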