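import Pool.Agent.Lib.MP_5d8e72_nt.Quant

/-!
# MP_5d8e72_nt: the first moment, and bounds for all moments
-/

set_option autoImplicit false

open Filter Topology Finset

namespace Pool.Agent.Lib.MP_5d8e72_nt

theorem M_eq (m p : ℕ) [Fact p.Prime] :
    M m p = ∑ χ ∈ nt p, ((‖S p χ‖ ^ 2 / p) ^ m / p) * ‖L1 p χ‖ := by
  unfold M nt
  rw [Finset.sum_div]
  refine Finset.sum_congr rfl fun χ _ => ?_
  rw [pow_mul, div_pow, pow_succ]
  ring

theorem M_one (p : ℕ) [Fact p.Prime] :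
    M 1 p = ∑ χ ∈ nt p, (‖S p χ‖ ^ 2 / (p : ℝ) ^ 2) * ‖L1 p χ‖ := by
  rw [M_eq]
  refine Finset.sum_congr rfl fun χ _ => ?_
  rw [pow_one, div_div, sq (p : ℝ)]

/-- the first moment -/
theorem M_one_sub (p : ℕ) [Fact p.Prime] (h3 : 3 < p) : |M 1 p - CC| ≤ 36 * Er p := by
  have hp0 : (0 : ℝ) < (p : ℝ) := by exact_mod_cast (by omega : 0 < p)
  have h := quant p h3 4 (by norm_num) (fun χ => ‖S p χ‖ ^ 2 / (p : ℝ) ^ 2)
    (fun χ _ => by positivity)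
    (fun χ hχ => by
      show ‖S p χ‖ ^ 2 / (p : ℝ) ^ 2 ≤ 4 / p
      rw [div_le_div_iff₀ (by positivity) hp0]
      have h1 := S_sq_le p (by omega) χ hχ
      calc ‖S p χ‖ ^ 2 * (p : ℝ) ≤ (4 * (p : ℝ)) * (p : ℝ) :=
            mul_le_mul_of_nonneg_right h1 hp0.le
        _ = 4 * (p : ℝ) ^ 2 := by ring)
    (fun a b ha hb hab => bound1' p h3 ha hb hab)
  rw [M_one]
  refine h.trans (le_of_eq ?_)
  norm_num

theorem ev_nonneg (p : ℕ) (χ : DirichletCharacter ℂ p) : 0 ≤ ev p χ := by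
  unfold ev
  split_ifs <;> norm_num

theorem ev_le (p : ℕ) (χ : DirichletCharacter ℂ p) : ev p χ ≤ 2 := by
  unfold ev
  split_ifs <;> norm_num

/-- the mean of `|L(1, χ)|` over the even characters -/
theorem even_sub (p : ℕ) [Fact p.Prime] (h3 : 3 < p) :
    |∑ χ ∈ nt p, (ev p χ / (p : ℝ)) * ‖L1 p χ‖ - CC| ≤ 24 * Er p := by
  have h := quant p h3 2 (by norm_num) (fun χ => ev p χ / (p : ℝ))
    (fun χ _ => div_nonneg (ev_nonneg _ _) (by positivity))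
    (fun χ _ => div_le_div_of_nonneg_right (ev_le _ _) (by positivity))
    (fun a b ha hb hab => bound2 p ha hb hab)
  refine h.trans (le_of_eq ?_)
  norm_num

theorem upper_pt (k : ℕ) {x : ℝ} (h0 : 0 ≤ x) (h4 : x ≤ 4) : x ^ (k + 1) ≤ 4 ^ k * x := by
  rw [pow_succ]
  exact mul_le_mul_of_nonneg_right (pow_le_pow_left₀ h0 h4 k) h0

theorem lower_pt (k : ℕ) {x : ℝ} (h0 : 0 ≤ x) :
    2 * (2 ^ k - (k + 1) * 2 ^ k) + (k + 1) * 2 ^ k * x ≤ x ^ (k + 1) := by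
  have h1 := one_add_mul_le_pow (a := (x - 2) / 2) (by linarith) (k + 1)
  have h2 : 1 + (x - 2) / 2 = x / 2 := by ring
  rw [h2, div_pow] at h1
  have h3 : (0 : ℝ) < 2 ^ (k + 1) := by positivity
  rw [le_div_iff₀ h3] at h1
  refine le_trans (le_of_eq ?_) h1
  push_cast
  rw [pow_succ]
  ring

theorem x_le (p : ℕ) [Fact p.Prime] (h2 : p ≠ 2) (χ : DirichletCharacter ℂ p) (hχ : χ ≠ 1) :
    ‖S p χ‖ ^ 2 / p ≤ 4 := by
  have hp0 : (0 : ℝ) < p := by exact_mod_cast (Fact.out : p.Prime).pos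
  rw [div_le_iff₀ hp0]
  exact S_sq_le p h2 χ hχ

theorem M_le (k : ℕ) (p : ℕ) [Fact p.Prime] (h2 : p ≠ 2) : M (k + 1) p ≤ 4 ^ k * M 1 p := by
  rw [M_eq, M_eq, Finset.mul_sum]
  refine Finset.sum_le_sum fun χ hχ => ?_
  rw [mem_nt] at hχ
  have h3 := upper_pt k (x := ‖S p χ‖ ^ 2 / p) (by positivity) (x_le p h2 χ hχ)
  have h4 : (‖S p χ‖ ^ 2 / p) ^ (k + 1) / p ≤ 4 ^ k * ((‖S p χ‖ ^ 2 / p) ^ 1 / p) := by
    rw [pow_one, ← mul_div_assoc]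
    exact div_le_div_of_nonneg_right h3 (by positivity)
  rw [← mul_assoc]
  exact mul_le_mul_of_nonneg_right h4 (norm_nonneg _)

theorem le_M (k : ℕ) (p : ℕ) [Fact p.Prime] :
    (2 ^ k - (k + 1) * 2 ^ k) * ∑ χ ∈ nt p, (ev p χ / (p : ℝ)) * ‖L1 p χ‖ +
      (k + 1) * 2 ^ k * M 1 p ≤ M (k + 1) p := by
  rw [M_eq, M_eq, Finset.mul_sum, Finset.mul_sum, ← Finset.sum_add_distrib]
  refine Finset.sum_le_sum fun χ hχ => ?_
  rw [mem_nt] at hχ
  have hq0 : (0 : ℝ) < (p : ℝ) := by exact_mod_cast (Fact.out : p.Prime).pos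
  have h3 : (2 ^ k - (k + 1) * 2 ^ k) * ev p χ + (k + 1) * 2 ^ k * (‖S p χ‖ ^ 2 / (p : ℝ)) ≤
      (‖S p χ‖ ^ 2 / (p : ℝ)) ^ (k + 1) := by
    rcases DirichletCharacter.even_or_odd χ with h | h
    · have h1 : χ (-1) = 1 := h
      have h2 : ev p χ = 2 := by unfold ev; rw [if_pos h1]
      rw [h2]
      have h4 := lower_pt k (x := ‖S p χ‖ ^ 2 / (p : ℝ)) (by positivity)
      linarith
    · have h1 : χ (-1) = -1 := h
      have h2 : ev p χ = 0 := by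
        unfold ev
        rw [if_neg]
        rw [h1]
        norm_num
      rw [h2, S_odd p χ h1]
      simp
  have h4 : (2 ^ k - (k + 1) * 2 ^ k) * (ev p χ / (p : ℝ) * ‖L1 p χ‖) +
      (k + 1) * 2 ^ k * ((‖S p χ‖ ^ 2 / (p : ℝ)) ^ 1 / (p : ℝ) * ‖L1 p χ‖) =
      (((2 ^ k - (k + 1) * 2 ^ k) * ev p χ + (k + 1) * 2 ^ k * (‖S p χ‖ ^ 2 / (p : ℝ))) /
        (p : ℝ)) * ‖L1 p χ‖ := by
    rw [pow_one]
    ring
  rw [h4]
  exact mul_le_mul_of_nonneg_right (div_le_div_of_nonneg_right h3 hq0.le) (norm_nonneg _)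

/-- the first moment, and bounds for all moments -/
theorem main : ∃ C : ℝ, IsC C ∧ ∀ (p : ℕ) [Fact p.Prime], 3 < p → ∀ m : ℕ, 1 ≤ m →
    2 ^ (m - 1) * (C - 60 * m * ((1 + Real.log p) ^ 2 / √p)) ≤ M m p ∧
      M m p ≤ 4 ^ (m - 1) * (C + 36 * ((1 + Real.log p) ^ 2 / √p)) := by
  refine ⟨CC, isC_CC, ?_⟩
  intro p hp h3 m hm
  obtain ⟨k, rfl⟩ : ∃ k, m = k + 1 := ⟨m - 1, by omega⟩
  rw [Nat.add_sub_cancel]
  have h1 := abs_le.1 (M_one_sub p h3)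
  have h2 := abs_le.1 (even_sub p h3)
  have h4 := M_le k p (by omega)
  have h5 := le_M k p
  have hE : 0 ≤ Er p := by unfold Er; positivity
  unfold Er at h1 h2 hE
  set E := (1 + Real.log p) ^ 2 / √(p : ℝ)
  set X := ∑ χ ∈ nt p, (ev p χ / (p : ℝ)) * ‖L1 p χ‖
  have hk : (0 : ℝ) ≤ (k : ℝ) := by positivity
  have h2k : (0 : ℝ) < 2 ^ k := by positivity
  have h4k : (0 : ℝ) < 4 ^ k := by positivity
  constructor
  · refine le_trans ?_ h5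
    have h6 : (2 ^ k - ((k : ℝ) + 1) * 2 ^ k) * X + (k + 1) * 2 ^ k * M 1 p =
        2 ^ k * ((k + 1) * M 1 p - k * X) := by ring
    rw [h6]
    refine mul_le_mul_of_nonneg_left ?_ h2k.le
    push_cast
    have h7 : (k : ℝ) * X ≤ k * (CC + 24 * E) := mul_le_mul_of_nonneg_left (by linarith [h2.2]) hk
    have h8 : ((k : ℝ) + 1) * (CC - 36 * E) ≤ (k + 1) * M 1 p :=
      mul_le_mul_of_nonneg_left (by linarith [h1.1]) (by linarith)
    nlinarith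
  · refine h4.trans ?_
    exact mul_le_mul_of_nonneg_left (by linarith [h1.2]) h4k.le

end Pool.Agent.Lib.MP_5d8e72_nt
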