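import Pool.Agent.Lib.MP_5d8e72_nt.MeanB

/-!
# MP_5d8e72_nt: weighted means of `|L(1, χ)|` from the orthogonality of the weights
-/

set_option autoImplicit false

open Filter Topology Finset

namespace Pool.Agent.Lib.MP_5d8e72_nt

open Classical in
/-- the characters other than the principal one -/
noncomputable def nt (p : ℕ) [Fact p.Prime] : Finset (DirichletCharacter ℂ p) :=
  (Finset.univ : Finset (DirichletCharacter ℂ p)).filter (fun χ => χ ≠ 1)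

theorem mem_nt (p : ℕ) [Fact p.Prime] (χ : DirichletCharacter ℂ p) : χ ∈ nt p ↔ χ ≠ 1 := by
  classical
  unfold nt
  simp

theorem card_nt (p : ℕ) [Fact p.Prime] : ((nt p).card : ℝ) ≤ p := by
  have h2 : (nt p).card ≤ Fintype.card (DirichletCharacter ℂ p) := Finset.card_le_univ _
  have h3 : Fintype.card (DirichletCharacter ℂ p) = p.totient := by
    rw [← Nat.card_eq_fintype_card]
    exact DirichletCharacter.card_eq_totient_of_hasEnoughRootsOfUnity ℂ p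
  rw [h3] at h2
  exact_mod_cast h2.trans (Nat.totient_le p)

theorem tendsto_PF : Tendsto (fun q : Nat.Primes => (q : ℕ)) PF atTop := tendsto_comap

theorem dl_nonneg (p N : ℕ) : 0 ≤ dl p N := by
  unfold dl
  positivity

theorem sum_norm_le (p N : ℕ) [Fact p.Prime] (hN : N < p) :
    ∑ χ ∈ nt p, ‖L1 p χ - A p N χ ^ 2‖ ≤ p * √(dl p N) := by
  have h1 : (∑ χ ∈ nt p, ‖L1 p χ - A p N χ ^ 2‖) ^ 2 ≤
      (nt p).card * ∑ χ ∈ nt p, ‖L1 p χ - A p N χ ^ 2‖ ^ 2 := sq_sum_le_card_mul_sum_sq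
  have h2 : ∑ χ ∈ nt p, ‖L1 p χ - A p N χ ^ 2‖ ^ 2 ≤ p * dl p N := meanL p N hN
  have h3 : (∑ χ ∈ nt p, ‖L1 p χ - A p N χ ^ 2‖) ^ 2 ≤ (p * √(dl p N)) ^ 2 := by
    rw [mul_pow, Real.sq_sqrt (dl_nonneg p N)]
    refine h1.trans ?_
    calc ((nt p).card : ℝ) * ∑ χ ∈ nt p, ‖L1 p χ - A p N χ ^ 2‖ ^ 2
        ≤ p * (p * dl p N) := mul_le_mul (card_nt p) h2
          (Finset.sum_nonneg (fun _ _ => by positivity)) (by positivity)
      _ = (p : ℝ) ^ 2 * dl p N := by ring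
  have h4 : 0 ≤ (p : ℝ) * √(dl p N) := by positivity
  exact (le_abs_self _).trans (abs_le_of_sq_le_sq h3 h4)

theorem diff_le (p N : ℕ) [Fact p.Prime] (hN : N < p) (B : ℝ)
    (w : DirichletCharacter ℂ p → ℝ) (h0 : ∀ χ, χ ≠ 1 → 0 ≤ w χ)
    (h1 : ∀ χ, χ ≠ 1 → w χ ≤ B / p) (hB : 0 ≤ B) :
    |∑ χ ∈ nt p, w χ * ‖L1 p χ‖ - ∑ χ ∈ nt p, w χ * ‖A p N χ‖ ^ 2| ≤ B * √(dl p N) := by
  have hp : p.Prime := Fact.out
  have hp0 : (0 : ℝ) < p := by exact_mod_cast hp.pos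
  rw [← Finset.sum_sub_distrib]
  calc |∑ χ ∈ nt p, (w χ * ‖L1 p χ‖ - w χ * ‖A p N χ‖ ^ 2)|
      ≤ ∑ χ ∈ nt p, |w χ * ‖L1 p χ‖ - w χ * ‖A p N χ‖ ^ 2| := Finset.abs_sum_le_sum_abs _ _
    _ ≤ ∑ χ ∈ nt p, (B / p) * ‖L1 p χ - A p N χ ^ 2‖ := by
        refine Finset.sum_le_sum fun χ hχ => ?_
        rw [mem_nt] at hχ
        rw [← mul_sub, abs_mul, abs_of_nonneg (h0 χ hχ), ← norm_pow]
        exact mul_le_mul (h1 χ hχ) (abs_norm_sub_norm_le _ _) (abs_nonneg _) (by positivity)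
    _ = (B / p) * ∑ χ ∈ nt p, ‖L1 p χ - A p N χ ^ 2‖ := by rw [Finset.mul_sum]
    _ ≤ (B / p) * (p * √(dl p N)) :=
        mul_le_mul_of_nonneg_left (sum_norm_le p N hN) (by positivity)
    _ = B * √(dl p N) := by field_simp

theorem sum_w_A (p N : ℕ) [Fact p.Prime] (w : DirichletCharacter ℂ p → ℝ) :
    ((∑ χ ∈ nt p, w χ * ‖A p N χ‖ ^ 2 : ℝ) : ℂ) =
      ∑ m ∈ Finset.Icc 1 N, ∑ n ∈ Finset.Icc 1 N, (((ca m / m) * (ca n / n) : ℝ) : ℂ) *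
        ∑ χ ∈ nt p, (w χ : ℂ) * (χ (m : ZMod p) * (starRingEnd ℂ) (χ (n : ZMod p))) := by
  push_cast
  have h1 : ∀ χ ∈ nt p, (w χ : ℂ) * (‖A p N χ‖ : ℂ) ^ 2 =
      ∑ m ∈ Finset.Icc 1 N, ∑ n ∈ Finset.Icc 1 N, ((ca m : ℂ) / m * ((ca n : ℂ) / n)) *
        ((w χ : ℂ) * (χ (m : ZMod p) * (starRingEnd ℂ) (χ (n : ZMod p)))) := by
    intro χ _
    rw [← Complex.mul_conj']
    unfold A
    rw [map_sum, Finset.sum_mul_sum, Finset.mul_sum]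
    refine Finset.sum_congr rfl fun m _ => ?_
    rw [Finset.mul_sum]
    refine Finset.sum_congr rfl fun n _ => ?_
    rw [map_div₀, map_mul, Complex.conj_ofReal, Complex.conj_natCast]
    ring
  rw [Finset.sum_congr rfl h1, Finset.sum_comm]
  refine Finset.sum_congr rfl fun m _ => ?_
  rw [Finset.sum_comm]
  refine Finset.sum_congr rfl fun n _ => ?_
  rw [Finset.mul_sum]

theorem tendsto_w_A (N : ℕ) (W : ∀ q : Nat.Primes, DirichletCharacter ℂ (q : ℕ) → ℝ) (κ : ℝ)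
    (horth : ∀ m n : ℕ, 1 ≤ m → 1 ≤ n → Tendsto (fun q : Nat.Primes =>
      ∑ χ ∈ nt q, (W q χ : ℂ) * (χ (m : ZMod q) * (starRingEnd ℂ) (χ (n : ZMod q)))) PF
      (𝓝 (if m = n then (κ : ℂ) else 0))) :
    Tendsto (fun q : Nat.Primes => ∑ χ ∈ nt q, W q χ * ‖A q N χ‖ ^ 2) PF
      (𝓝 (κ * ∑ n ∈ Finset.Icc 1 N, fa n)) := by
  have h1 : Tendsto (fun q : Nat.Primes => ((∑ χ ∈ nt q, W q χ * ‖A q N χ‖ ^ 2 : ℝ) : ℂ)) PF
      (𝓝 (∑ m ∈ Finset.Icc 1 N, ∑ n ∈ Finset.Icc 1 N, (((ca m / m) * (ca n / n) : ℝ) : ℂ) *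
        (if m = n then (κ : ℂ) else 0))) := by
    have h2 : (fun q : Nat.Primes => ((∑ χ ∈ nt q, W q χ * ‖A q N χ‖ ^ 2 : ℝ) : ℂ)) =
        (fun q : Nat.Primes => ∑ m ∈ Finset.Icc 1 N, ∑ n ∈ Finset.Icc 1 N,
          (((ca m / m) * (ca n / n) : ℝ) : ℂ) *
          ∑ χ ∈ nt q, (W q χ : ℂ) * (χ (m : ZMod q) * (starRingEnd ℂ) (χ (n : ZMod q)))) := by
      funext q
      exact sum_w_A q N (W q)
    rw [h2]
    refine tendsto_finsetSum _ fun m hm => tendsto_finsetSum _ fun n hn => ?_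
    rw [Finset.mem_Icc] at hm hn
    exact (horth m n hm.1 hn.1).const_mul _
  have h3 : (∑ m ∈ Finset.Icc 1 N, ∑ n ∈ Finset.Icc 1 N, (((ca m / m) * (ca n / n) : ℝ) : ℂ) *
        (if m = n then (κ : ℂ) else 0)) = ((κ * ∑ n ∈ Finset.Icc 1 N, fa n : ℝ) : ℂ) := by
    push_cast
    rw [Finset.mul_sum]
    refine Finset.sum_congr rfl fun m hm => ?_
    rw [Finset.sum_eq_single m]
    · rw [if_pos rfl]
      rw [fa_apply]
      push_cast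
      ring
    · intro n _ hn
      rw [if_neg (fun h => hn h.symm), mul_zero]
    · intro h
      exact absurd hm h
  rw [h3] at h1
  have h4 := (Complex.continuous_re.tendsto _).comp h1
  rw [Complex.ofReal_re] at h4
  refine h4.congr ?_
  intro q
  exact Complex.ofReal_re _

/-- Lemma G -/
theorem gen (W : ∀ q : Nat.Primes, DirichletCharacter ℂ (q : ℕ) → ℝ) (κ B : ℝ) (hB : 0 ≤ B)
    (h0 : ∀ᶠ q : Nat.Primes in PF, ∀ χ : DirichletCharacter ℂ (q : ℕ), χ ≠ 1 → 0 ≤ W q χ)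
    (h1 : ∀ᶠ q : Nat.Primes in PF, ∀ χ : DirichletCharacter ℂ (q : ℕ), χ ≠ 1 →
      W q χ ≤ B / (q : ℕ))
    (horth : ∀ m n : ℕ, 1 ≤ m → 1 ≤ n → Tendsto (fun q : Nat.Primes =>
      ∑ χ ∈ nt q, (W q χ : ℂ) * (χ (m : ZMod q) * (starRingEnd ℂ) (χ (n : ZMod q)))) PF
      (𝓝 (if m = n then (κ : ℂ) else 0))) :
    Tendsto (fun q : Nat.Primes => ∑ χ ∈ nt q, W q χ * ‖L1 q χ‖) PF (𝓝 (κ * CC)) := by
  rw [Metric.tendsto_nhds]
  intro ε hε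
  have e1 : Tendsto (fun N : ℕ => κ * ∑ n ∈ Finset.Icc 1 N, fa n) atTop (𝓝 (κ * CC)) :=
    tendsto_CC.const_mul κ
  have e2 : Tendsto (fun N : ℕ => B * √(8 / ((N : ℝ) + 1))) atTop (𝓝 0) := by
    have h2 : Tendsto (fun N : ℕ => 8 / ((N : ℝ) + 1)) atTop (𝓝 0) := by
      have h3 := (tendsto_one_div_add_atTop_nhds_zero_nat (𝕜 := ℝ)).const_mul 8
      rw [mul_zero] at h3
      refine h3.congr ?_
      intro N
      ring
    have h3 := (h2.sqrt).const_mul B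
    rwa [Real.sqrt_zero, mul_zero] at h3
  have hε3 : 0 < ε / 3 := by positivity
  have e1' := (Metric.tendsto_nhds.1 e1) (ε / 3) hε3
  have e2' : ∀ᶠ N : ℕ in atTop, B * √(8 / ((N : ℝ) + 1)) < ε / 3 := e2.eventually_lt_const hε3
  obtain ⟨N, hN1, hN2⟩ := (e1'.and e2').exists
  have e3 : Tendsto (fun q : Nat.Primes => B * √(dl q N)) PF (𝓝 (B * √(8 / ((N : ℝ) + 1)))) :=
    (((tendsto_dl N).comp tendsto_PF).sqrt).const_mul B
  have e3' : ∀ᶠ q : Nat.Primes in PF, B * √(dl q N) < ε / 3 := e3.eventually_lt_const hN2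
  have e4 := (Metric.tendsto_nhds.1 (tendsto_w_A N W κ horth)) (ε / 3) hε3
  have e5 : ∀ᶠ q : Nat.Primes in PF, N < (q : ℕ) := tendsto_PF.eventually_gt_atTop N
  filter_upwards [h0, h1, e3', e4, e5] with q q0 q1 q3 q4 q5
  have h2 := diff_le q N q5 B (W q) q0 q1 hB
  rw [Real.dist_eq] at hN1 q4 ⊢
  have h3 := abs_lt.1 hN1
  have h4 := abs_lt.1 q4
  have h5 := abs_le.1 h2
  rw [abs_lt]
  constructor <;> linarith [h3.1, h3.2, h4.1, h4.2, h5.1, h5.2]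

end Pool.Agent.Lib.MP_5d8e72_nt
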