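import Pool.Agent.Lib.MP_5d8e72_nt.Wei

/-!
# MP_5d8e72_nt: the size of `S(χ)`
-/

set_option autoImplicit false

open Filter Topology Finset

namespace Pool.Agent.Lib.MP_5d8e72_nt

variable (p : ℕ) [Fact p.Prime]

/-- even characters are squares -/
theorem exists_sq (h2 : p ≠ 2) (χ : DirichletCharacter ℂ p) (h : χ (-1) = 1) :
    ∃ ψ : DirichletCharacter ℂ p, ψ * ψ = χ := by
  obtain ⟨e⟩ := DirichletCharacter.mulEquiv_units ℂ p
  have h1 : χ ^ (p / 2) = 1 := by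
    apply MulChar.ext
    intro a
    rw [MulChar.pow_apply_coe, MulChar.one_apply_coe, ← map_pow]
    rcases ZMod.pow_div_two_eq_neg_one_or_one p a.ne_zero with h3 | h3
    · rw [h3, map_one]
    · rw [h3, h]
  have h3 : (e χ) ^ (Fintype.card (ZMod p) / 2) = 1 := by
    rw [ZMod.card, ← map_pow, h1, map_one]
  have h4 := (FiniteField.unit_isSquare_iff (ringChar_ne p h2) (e χ)).2 h3
  obtain ⟨b, hb⟩ := h4
  refine ⟨e.symm b, ?_⟩
  rw [← map_mul, ← hb, MulEquiv.symm_apply_apply]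

/-- the complex quadratic character -/
noncomputable def rc : DirichletCharacter ℂ p := (rho p).ringHomComp (Int.castRingHom ℂ)

theorem rc_apply (x : ZMod p) : rc p x = ((rho p x : ℤ) : ℂ) := rfl

theorem rc_ne_one (h2 : p ≠ 2) : rc p ≠ 1 :=
  (MulChar.ringHomComp_ne_one_iff (f := Int.castRingHom ℂ)
    (RingHom.injective_int _)).2 (quadraticChar_ne_one (ringChar_ne p h2))

theorem rc_mul_rc : rc p * rc p = 1 := by
  apply MulChar.ext
  intro a
  rw [MulChar.mul_apply, MulChar.one_apply_coe, rc_apply, ← Int.cast_mul, rho_mul_self p a.ne_zero,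
    Int.cast_one]

theorem jac_conj (χ φ : DirichletCharacter ℂ p) :
    jacobiSum χ⁻¹ φ⁻¹ = (starRingEnd ℂ) (jacobiSum χ φ) := by
  unfold jacobiSum
  rw [map_sum]
  refine Finset.sum_congr rfl fun x _ => ?_
  rw [map_mul, ← MulChar.star_eq_inv, ← MulChar.star_eq_inv]
  rfl

theorem norm_jac {χ φ : DirichletCharacter ℂ p} (h1 : χ ≠ 1) (h2 : φ ≠ 1) (h3 : χ * φ ≠ 1) :
    ‖jacobiSum χ φ‖ = √p := by
  have hp : p.Prime := Fact.out
  have h4 : ringChar ℂ ≠ ringChar (ZMod p) := by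
    rw [ringChar.eq_zero, ZMod.ringChar_zmod_n]
    exact hp.ne_zero.symm
  have h5 := jacobiSum_mul_jacobiSum_inv h4 h1 h2 h3
  rw [jac_conj, Complex.mul_conj', ZMod.card] at h5
  have h6 : ‖jacobiSum χ φ‖ ^ 2 = (p : ℝ) := by exact_mod_cast h5
  rw [← h6, Real.sqrt_sq (norm_nonneg _)]

theorem sum_shift (h2 : p ≠ 2) (φ : DirichletCharacter ℂ p) :
    ∑ w : ZMod p, φ w * rc p (w - 4) = φ 4 * rc p (-4) * jacobiSum φ (rc p) := by
  unfold jacobiSum
  rw [← Equiv.sum_comp (Equiv.mulRight₀ (4 : ZMod p) (four_ne p h2))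
    (fun w : ZMod p => φ w * rc p (w - 4)), Finset.mul_sum]
  refine Finset.sum_congr rfl fun v _ => ?_
  have h1 : v * 4 - 4 = (-4) * (1 - v) := by ring
  rw [Equiv.mulRight₀_apply, h1, map_mul (rc p), map_mul φ]
  ring

omit [Fact p.Prime] in
theorem norm_char_le (χ : DirichletCharacter ℂ p) (x : ZMod p) : ‖χ x‖ ≤ 1 :=
  DirichletCharacter.norm_le_one χ x

theorem norm_TT (h2 : p ≠ 2) (χ : DirichletCharacter ℂ p) (hχ : χ ≠ 1) (h : χ (-1) = 1) :
    ‖TT p χ‖ ≤ 2 * √p := by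
  obtain ⟨ψ, hψ⟩ := exists_sq p h2 χ h
  have h1 : TT p χ = ∑ w : ZMod p, (ψ * rc p) w * rc p (w - 4) + ∑ w : ZMod p, ψ w * rc p (w - 4) := by
    unfold TT
    have h3 := sum_sq p h2 (fun w => ((rho p (w - 4) : ℤ) : ℂ) * ψ w)
    have h4 : ∀ t : ZMod p, ((rho p (t ^ 2 - 4) : ℤ) : ℂ) * χ t =
        ((rho p (t ^ 2 - 4) : ℤ) : ℂ) * ψ (t ^ 2) := by
      intro t
      rw [← hψ, MulChar.mul_apply, ← map_mul ψ, sq]
    simp only [h4]
    rw [h3, ← Finset.sum_add_distrib]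
    refine Finset.sum_congr rfl fun w _ => ?_
    rw [MulChar.mul_apply, rc_apply, rc_apply]
    push_cast
    ring
  have hψ1 : ψ ≠ 1 := by
    rintro rfl
    exact hχ (by rw [← hψ, one_mul])
  have hψ2 : ψ * rc p ≠ 1 := by
    intro h3
    apply hχ
    rw [← hψ]
    calc ψ * ψ = (ψ * rc p) * (ψ * rc p) := by rw [mul_mul_mul_comm, rc_mul_rc, mul_one]
      _ = 1 := by rw [h3, one_mul]
  have hψ3 : ψ * rc p * rc p ≠ 1 := by rw [mul_assoc, rc_mul_rc, mul_one]; exact hψ1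
  have h5 : ∀ φ : DirichletCharacter ℂ p, φ ≠ 1 → φ * rc p ≠ 1 →
      ‖∑ w : ZMod p, φ w * rc p (w - 4)‖ ≤ √p := by
    intro φ h6 h7
    rw [sum_shift p h2, norm_mul, norm_mul, norm_jac p h6 (rc_ne_one p h2) h7]
    have h8 := norm_char_le p φ 4
    have h9 := norm_char_le p (rc p) (-4)
    have h10 : ‖φ 4‖ * ‖rc p (-4)‖ ≤ 1 := mul_le_one₀ h8 (norm_nonneg _) h9
    exact mul_le_of_le_one_left (Real.sqrt_nonneg _) h10
  rw [h1]
  refine (norm_add_le _ _).trans ?_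
  have h6 := h5 (ψ * rc p) hψ2 hψ3
  have h7 := h5 ψ hψ1 hψ2
  linarith

theorem S_odd (χ : DirichletCharacter ℂ p) (h : χ (-1) = -1) : S p χ = 0 := by
  have h1 : S p χ = - S p χ := by
    conv_lhs => unfold S
    rw [← Equiv.sum_comp (Equiv.neg ((ZMod p)ˣ))
      (fun a : (ZMod p)ˣ => χ ((a : ZMod p) + ((a⁻¹ : (ZMod p)ˣ) : ZMod p)))]
    unfold S
    rw [← Finset.sum_neg_distrib]
    refine Finset.sum_congr rfl fun a _ => ?_
    rw [Equiv.neg_apply]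
    have h3 : ((-a : (ZMod p)ˣ) : ZMod p) + (((-a)⁻¹ : (ZMod p)ˣ) : ZMod p) =
        (-1) * ((a : ZMod p) + ((a⁻¹ : (ZMod p)ˣ) : ZMod p)) := by
      rw [inv_neg]
      push_cast
      ring
    rw [h3, map_mul, h]
    ring
  have h4 : (2 : ℂ) * S p χ = 0 := by linear_combination h1
  rcases mul_eq_zero.1 h4 with h5 | h5
  · norm_num at h5
  · exact h5

theorem S_sq_le (h2 : p ≠ 2) (χ : DirichletCharacter ℂ p) (hχ : χ ≠ 1) : ‖S p χ‖ ^ 2 ≤ 4 * p := by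
  rcases DirichletCharacter.even_or_odd χ with h | h
  · rw [S_eq p h2 χ hχ]
    have h3 := norm_TT p h2 χ hχ h
    have h4 : ‖TT p χ‖ ^ 2 ≤ (2 * √p) ^ 2 := pow_le_pow_left₀ (norm_nonneg _) h3 2
    rw [mul_pow, Real.sq_sqrt (by positivity)] at h4
    linarith
  · rw [S_odd p χ h]
    simp

end Pool.Agent.Lib.MP_5d8e72_nt
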