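import Pool.Agent.Lib.MP_5d8e72_nt.Jac

/-!
# MP_5d8e72_nt: the weights and the limits
-/

set_option autoImplicit false

open Filter Topology Finset

namespace Pool.Agent.Lib.MP_5d8e72_nt

theorem sum_nt (p : ℕ) [Fact p.Prime] (f : DirichletCharacter ℂ p → ℂ) :
    ∑ χ ∈ nt p, f χ = ∑ χ : DirichletCharacter ℂ p, f χ - f 1 := by
  classical
  have h : nt p = (Finset.univ : Finset (DirichletCharacter ℂ p)).erase 1 := by
    ext χ
    rw [mem_nt, Finset.mem_erase]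
    simp
  rw [h, Finset.sum_erase_eq_sub (Finset.mem_univ _)]

theorem tendsto_of_bound (f : Nat.Primes → ℂ) (l : ℂ)
    (h : ∀ᶠ q : Nat.Primes in PF, ‖f q - l‖ ≤ 8 / √((q : ℕ) : ℝ)) : Tendsto f PF (𝓝 l) := by
  rw [tendsto_iff_norm_sub_tendsto_zero]
  have h1 : Tendsto (fun q : Nat.Primes => 8 / √((q : ℕ) : ℝ)) PF (𝓝 0) := by
    have h2 : Tendsto (fun q : Nat.Primes => √((q : ℕ) : ℝ)) PF atTop :=
      Real.tendsto_sqrt_atTop.comp (tendsto_natCast_atTop_atTop.comp tendsto_PF)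
    exact Tendsto.div_atTop tendsto_const_nhds h2
  exact squeeze_zero' (Eventually.of_forall fun q => norm_nonneg _) h h1

theorem cast_ne (p : ℕ) [Fact p.Prime] {m : ℕ} (h1 : 1 ≤ m) (h2 : m < p) : (m : ZMod p) ≠ 0 := by
  intro h
  rw [ZMod.natCast_eq_zero_iff] at h
  exact absurd (Nat.le_of_dvd h1 h) (not_le.2 h2)

theorem sq_ne (p : ℕ) [Fact p.Prime] {m n : ℕ} (h1 : 1 ≤ m) (h2 : m + n < p) (h : m ≠ n) :
    (m : ZMod p) ^ 2 ≠ (n : ZMod p) ^ 2 := by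
  intro h3
  have h4 : ((m : ZMod p) - n) * ((m : ZMod p) + n) = 0 := by linear_combination h3
  rcases mul_eq_zero.1 h4 with h5 | h5
  · have h6 : (m : ZMod p) = (n : ZMod p) := sub_eq_zero.1 h5
    rw [ZMod.natCast_eq_natCast_iff'] at h6
    rw [Nat.mod_eq_of_lt (by omega), Nat.mod_eq_of_lt (by omega)] at h6
    exact h h6
  · have h6 : ((m + n : ℕ) : ZMod p) = 0 := by push_cast; exact h5
    exact cast_ne p (by omega) h2 h6

theorem one_val (p : ℕ) [Fact p.Prime] {m : ℕ} (h1 : 1 ≤ m) (h2 : m < p) :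
    (1 : DirichletCharacter ℂ p) (m : ZMod p) = 1 :=
  MulChar.one_apply (isUnit_iff_ne_zero.2 (cast_ne p h1 h2))

/-- the weighted sum of `χ(m) conj χ(n)` -/
theorem val1 (p : ℕ) [Fact p.Prime] (h2 : p ≠ 2) {m n : ℕ} (hm : 1 ≤ m) (hn : 1 ≤ n)
    (h : m + n < p) :
    ∑ χ ∈ nt p, ((‖S p χ‖ ^ 2 / (p : ℝ) ^ 2 : ℝ) : ℂ) *
      (χ (m : ZMod p) * (starRingEnd ℂ) (χ (n : ZMod p))) =
      (((((p : ℝ) - 1) * (EE p m n : ℤ) - ‖TT p (1 : DirichletCharacter ℂ p)‖ ^ 2) /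
        (p : ℝ) ^ 2 : ℝ) : ℂ) := by
  have hm' := cast_ne p hm (by omega)
  have hn' := cast_ne p hn (by omega)
  have h3 : ∀ χ ∈ nt p, ((‖S p χ‖ ^ 2 / (p : ℝ) ^ 2 : ℝ) : ℂ) *
      (χ (m : ZMod p) * (starRingEnd ℂ) (χ (n : ZMod p))) =
      (((‖TT p χ‖ ^ 2 : ℝ) : ℂ) * (χ (m : ZMod p) * (starRingEnd ℂ) (χ (n : ZMod p)))) /
        (p : ℂ) ^ 2 := by
    intro χ hχ
    rw [mem_nt] at hχ
    rw [S_eq p h2 χ hχ]
    push_cast
    ring
  rw [Finset.sum_congr rfl h3, ← Finset.sum_div, sum_nt, sum_TT p hm' hn',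
    one_val p hm (by omega), one_val p hn (by omega)]
  push_cast
  rw [map_one]
  ring

theorem sqrt_facts {x : ℝ} (hx : 1 ≤ x) : 1 ≤ √x ∧ √x ≤ x ∧ √x * √x = x := by
  have h1 : √x * √x = x := Real.mul_self_sqrt (by linarith)
  have h2 : 1 ≤ √x := by
    rw [Real.one_le_sqrt]
    exact hx
  refine ⟨h2, ?_, h1⟩
  nlinarith

/-- the first weights -/
noncomputable def W1 (q : Nat.Primes) (χ : DirichletCharacter ℂ (q : ℕ)) : ℝ :=
  ‖S q χ‖ ^ 2 / ((q : ℕ) : ℝ) ^ 2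

theorem bound1 (p : ℕ) [Fact p.Prime] (h3 : 3 < p) {m n : ℕ} (hm : 1 ≤ m) (hn : 1 ≤ n)
    (h : m + n < p) :
    |((((p : ℝ) - 1) * (EE p m n : ℤ) - ‖TT p (1 : DirichletCharacter ℂ p)‖ ^ 2) /
        (p : ℝ) ^ 2) - (if m = n then 1 else 0)| ≤ 8 / √(p : ℝ) := by
  have h2 : p ≠ 2 := by omega
  have h30 : p ≠ 3 := by omega
  have hm' := cast_ne p hm (by omega)
  have hn' := cast_ne p hn (by omega)
  have hp1 : (1 : ℝ) ≤ p := by exact_mod_cast (by omega : 1 ≤ p)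
  obtain ⟨s1, s2, s3⟩ := sqrt_facts hp1
  set s := √(p : ℝ) with hs
  have hs0 : 0 < s := by linarith
  have hp0 : (0 : ℝ) < p := by linarith
  have t1 := TT_one p h2
  have t0 : 0 ≤ ‖TT p (1 : DirichletCharacter ℂ p)‖ := norm_nonneg _
  have t2 : ‖TT p (1 : DirichletCharacter ℂ p)‖ ^ 2 ≤ 4 := by nlinarith
  have t3 : 0 ≤ ‖TT p (1 : DirichletCharacter ℂ p)‖ ^ 2 := by positivity
  set θ := ‖TT p (1 : DirichletCharacter ℂ p)‖ ^ 2
  by_cases hmn : m = n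
  · subst hmn
    rw [if_pos rfl, EE_eq p h2 hm']
    push_cast
    have h4 : (((p : ℝ) - 1) * ((p : ℝ) - 3) - θ) / (p : ℝ) ^ 2 - 1 =
        (3 - 4 * (p : ℝ) - θ) / (p : ℝ) ^ 2 := by
      field_simp
      ring
    rw [h4, abs_div, abs_of_pos (by positivity : (0 : ℝ) < (p : ℝ) ^ 2), div_le_div_iff₀ (by positivity) hs0]
    have h5 : |3 - 4 * (p : ℝ) - θ| ≤ 8 * p := by
      rw [abs_le]
      constructor <;> linarith
    calc |3 - 4 * (p : ℝ) - θ| * s ≤ 8 * p * p := mul_le_mul h5 s2 hs0.le (by positivity)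
      _ = 8 * (p : ℝ) ^ 2 := by ring
  · rw [if_neg hmn, sub_zero, abs_div, abs_of_pos (by positivity : (0 : ℝ) < (p : ℝ) ^ 2),
      div_le_div_iff₀ (by positivity) hs0]
    have h4 := EE_ne p h2 h30 hm' hn' (sq_ne p hm h hmn)
    have h5 : ((EE p m n : ℤ) + 2 : ℝ) ^ 2 ≤ (2 * s) ^ 2 := by
      have h6 : (2 * s) ^ 2 = 4 * (p : ℝ) := by rw [mul_pow, sq s, s3]; ring
      rw [h6]
      exact_mod_cast h4
    have h6 := abs_le.1 (abs_le_of_sq_le_sq h5 (by positivity))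
    have h7 : |((p : ℝ) - 1) * (EE p m n : ℤ) - θ| ≤ p * (2 * s + 2) + 4 := by
      rw [abs_le]
      constructor
      · nlinarith [h6.1, h6.2]
      · nlinarith [h6.1, h6.2]
    calc |((p : ℝ) - 1) * (EE p m n : ℤ) - θ| * s ≤ (p * (2 * s + 2) + 4) * s :=
          mul_le_mul_of_nonneg_right h7 hs0.le
      _ = 2 * p * (s * s) + 2 * p * s + 4 * s := by ring
      _ ≤ 8 * (p : ℝ) ^ 2 := by
          rw [s3]
          nlinarith

theorem orth1 (m n : ℕ) (hm : 1 ≤ m) (hn : 1 ≤ n) : Tendsto (fun q : Nat.Primes =>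
      ∑ χ ∈ nt q, (W1 q χ : ℂ) * (χ (m : ZMod q) * (starRingEnd ℂ) (χ (n : ZMod q)))) PF
      (𝓝 (if m = n then ((1 : ℝ) : ℂ) else 0)) := by
  refine tendsto_of_bound _ _ ?_
  have e1 : ∀ᶠ q : Nat.Primes in PF, m + n + 3 < (q : ℕ) := tendsto_PF.eventually_gt_atTop _
  filter_upwards [e1] with q hq
  unfold W1
  rw [val1 q (by omega) hm hn (by omega)]
  have h1 := bound1 q (by omega) hm hn (by omega : m + n < (q : ℕ))
  have h2 : (if m = n then ((1 : ℝ) : ℂ) else 0) = ((if m = n then 1 else 0 : ℝ) : ℂ) := by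
    split_ifs <;> simp
  rw [h2, ← Complex.ofReal_sub, Complex.norm_real, Real.norm_eq_abs]
  exact h1

open Classical in
/-- `2` for the even characters, `0` for the odd ones -/
noncomputable def ev (p : ℕ) (χ : DirichletCharacter ℂ p) : ℝ := if χ (-1) = 1 then 2 else 0

theorem ev_cast (p : ℕ) (χ : DirichletCharacter ℂ p) : ((ev p χ : ℝ) : ℂ) = 1 + χ (-1) := by
  unfold ev
  rcases DirichletCharacter.even_or_odd χ with h | h
  · have h1 : χ (-1) = 1 := h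
    rw [if_pos h1, h1]
    norm_num
  · have h1 : χ (-1) = -1 := h
    have h2 : ¬ χ (-1) = 1 := by rw [h1]; norm_num
    rw [if_neg h2, h1]
    norm_num

/-- the second weights -/
noncomputable def W2 (q : Nat.Primes) (χ : DirichletCharacter ℂ (q : ℕ)) : ℝ :=
  ev q χ / ((q : ℕ) : ℝ)

theorem val2 (p : ℕ) [Fact p.Prime] {m n : ℕ} (hm : 1 ≤ m) (hn : 1 ≤ n)
    (h : m + n < p) :
    ∑ χ ∈ nt p, ((ev p χ / (p : ℝ) : ℝ) : ℂ) *
      (χ (m : ZMod p) * (starRingEnd ℂ) (χ (n : ZMod p))) =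
      (((((p : ℝ) - 1) * (if m = n then 1 else 0) - 2) / (p : ℝ) : ℝ) : ℂ) := by
  have hm' := cast_ne p hm (by omega)
  have hn' := cast_ne p hn (by omega)
  have h3 : ∀ χ ∈ nt p, ((ev p χ / (p : ℝ) : ℝ) : ℂ) *
      (χ (m : ZMod p) * (starRingEnd ℂ) (χ (n : ZMod p))) =
      (χ (m : ZMod p) * (starRingEnd ℂ) (χ (n : ZMod p)) +
        χ (-(m : ZMod p)) * (starRingEnd ℂ) (χ (n : ZMod p))) / (p : ℂ) := by
    intro χ _
    rw [Complex.ofReal_div, ev_cast, ← neg_one_mul (m : ZMod p), map_mul]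
    push_cast
    ring
  have h4 : (1 : DirichletCharacter ℂ p) (-(m : ZMod p)) = 1 :=
    MulChar.one_apply (isUnit_iff_ne_zero.2 (neg_ne_zero.2 hm'))
  have h5 : ((m : ZMod p) = n ∧ (n : ZMod p) ≠ 0) ↔ m = n := by
    constructor
    · rintro ⟨h6, _⟩
      by_contra h7
      exact sq_ne p hm h h7 (by rw [h6])
    · rintro rfl
      exact ⟨rfl, hn'⟩
  have h6 : ¬ (-(m : ZMod p) = n ∧ (n : ZMod p) ≠ 0) := by
    rintro ⟨h7, _⟩
    have h8 : ((m + n : ℕ) : ZMod p) = 0 := by push_cast; rw [← h7]; ring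
    exact cast_ne p (by omega) h h8
  rw [Finset.sum_congr rfl h3, ← Finset.sum_div, sum_nt, Finset.sum_add_distrib, orth, orth,
    one_val p hm (by omega), one_val p hn (by omega), h4, if_neg h6]
  simp only [h5]
  rw [map_one]
  split_ifs <;> push_cast <;> ring

theorem orth2 (m n : ℕ) (hm : 1 ≤ m) (hn : 1 ≤ n) : Tendsto (fun q : Nat.Primes =>
      ∑ χ ∈ nt q, (W2 q χ : ℂ) * (χ (m : ZMod q) * (starRingEnd ℂ) (χ (n : ZMod q)))) PF
      (𝓝 (if m = n then ((1 : ℝ) : ℂ) else 0)) := by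
  refine tendsto_of_bound _ _ ?_
  have e1 : ∀ᶠ q : Nat.Primes in PF, m + n + 3 < (q : ℕ) := tendsto_PF.eventually_gt_atTop _
  filter_upwards [e1] with q hq
  unfold W2
  rw [val2 q hm hn (by omega)]
  have h2 : (if m = n then ((1 : ℝ) : ℂ) else 0) = ((if m = n then 1 else 0 : ℝ) : ℂ) := by
    split_ifs <;> simp
  rw [h2, ← Complex.ofReal_sub, Complex.norm_real, Real.norm_eq_abs]
  have hp1 : (1 : ℝ) ≤ ((q : ℕ) : ℝ) := by exact_mod_cast (by omega : 1 ≤ (q : ℕ))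
  obtain ⟨s1, s2, s3⟩ := sqrt_facts hp1
  have hp0 : (0 : ℝ) < ((q : ℕ) : ℝ) := by linarith
  have hs0 : 0 < √((q : ℕ) : ℝ) := by linarith
  have h4 : (((q : ℕ) : ℝ) - 1) * (if m = n then 1 else 0) - 2 =
      ((q : ℕ) : ℝ) * (if m = n then 1 else 0) - (2 + (if m = n then 1 else 0)) := by
    split_ifs <;> ring
  have h5 : ((((q : ℕ) : ℝ) - 1) * (if m = n then 1 else 0) - 2) / ((q : ℕ) : ℝ) -
      (if m = n then 1 else 0) = -((2 + (if m = n then 1 else 0)) / ((q : ℕ) : ℝ)) := by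
    rw [h4]
    field_simp
    ring
  rw [h5, abs_neg, abs_div, abs_of_pos hp0, div_le_div_iff₀ hp0 hs0]
  have h6 : |(2 + (if m = n then 1 else 0) : ℝ)| ≤ 8 := by
    split_ifs <;> norm_num
  exact mul_le_mul h6 s2 hs0.le (by norm_num)

end Pool.Agent.Lib.MP_5d8e72_nt
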