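import Pool.Agent.Lib.MP_5d8e72_nt.Defs

/-!
# MP_5d8e72_nt: the finite sums of `L(1, χ)`
-/

set_option autoImplicit false

open Filter Topology Finset

namespace Pool.Agent.Lib.MP_5d8e72_nt

/-- a sum over a complete system of residues -/
theorem sum_period (p : ℕ) [Fact p.Prime] (f : ZMod p → ℂ) (a : ℕ) :
    ∑ j ∈ Finset.range p, f ((a + j : ℕ) : ZMod p) = ∑ x : ZMod p, f x := by
  classical
  have hp : p.Prime := Fact.out
  refine Finset.sum_nbij (fun j => ((a + j : ℕ) : ZMod p)) ?_ ?_ ?_ ?_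
  · intro j _
    exact Finset.mem_univ _
  · intro i hi j hj hij
    simp only [Finset.coe_range, Set.mem_Iio] at hi hj
    have h1 : ((a + i : ℕ) : ZMod p) = ((a + j : ℕ) : ZMod p) := hij
    rw [ZMod.natCast_eq_natCast_iff] at h1
    have h2 : i ≡ j [MOD p] := Nat.ModEq.add_left_cancel' a h1
    exact Nat.ModEq.eq_of_lt_of_lt h2 hi hj
  · intro x _
    refine ⟨(x - (a : ZMod p)).val, ?_, ?_⟩
    · simp only [Finset.coe_range, Set.mem_Iio]
      exact ZMod.val_lt _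
    · simp only [Nat.cast_add, ZMod.natCast_zmod_val]
      ring
  · intro j _
    rfl

/-- the sums of the character -/
noncomputable def T (p : ℕ) (χ : DirichletCharacter ℂ p) (N : ℕ) : ℂ :=
  ∑ n ∈ Finset.range (N + 1), χ (n : ZMod p)

theorem T_add (p : ℕ) [Fact p.Prime] (χ : DirichletCharacter ℂ p) (hχ : χ ≠ 1) (N : ℕ) :
    T p χ (N + p) = T p χ N := by
  unfold T
  have h : N + p + 1 = (N + 1) + p := by ring
  rw [h, Finset.sum_range_add, sum_period p (fun x => χ x) (N + 1),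
    MulChar.sum_eq_zero_of_ne_one hχ, add_zero]

theorem norm_T (p : ℕ) [Fact p.Prime] (χ : DirichletCharacter ℂ p) (hχ : χ ≠ 1) (N : ℕ) :
    ‖T p χ N‖ ≤ p := by
  have hp : p.Prime := Fact.out
  induction N using Nat.strong_induction_on with
  | _ N ih =>
    by_cases hN : N < p
    · unfold T
      calc ‖∑ n ∈ Finset.range (N + 1), χ (n : ZMod p)‖
          ≤ ∑ n ∈ Finset.range (N + 1), ‖χ (n : ZMod p)‖ := norm_sum_le _ _
        _ ≤ ∑ _n ∈ Finset.range (N + 1), (1 : ℝ) :=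
            Finset.sum_le_sum (fun n _ => DirichletCharacter.norm_le_one χ _)
        _ = N + 1 := by simp
        _ ≤ p := by exact_mod_cast hN
    · push Not at hN
      obtain ⟨k, rfl⟩ := Nat.exists_eq_add_of_le hN
      rw [add_comm p k, T_add p χ hχ]
      exact ih k (by have := hp.pos; omega)

theorem T_succ (p : ℕ) (χ : DirichletCharacter ℂ p) (N : ℕ) :
    T p χ (N + 1) = T p χ N + χ ((N + 1 : ℕ) : ZMod p) := by
  unfold T
  rw [Finset.sum_range_succ]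

theorem PS_succ (p : ℕ) (χ : DirichletCharacter ℂ p) (N : ℕ) :
    PS p χ (N + 1) = PS p χ N + χ ((N + 1 : ℕ) : ZMod p) / ((N + 1 : ℕ) : ℂ) := by
  unfold PS
  rw [Finset.sum_Icc_succ_top (by omega)]

theorem abel (p : ℕ) [Fact p.Prime] (χ : DirichletCharacter ℂ p) (hχ : χ ≠ 1) (m k : ℕ) :
    ‖PS p χ (m + k) - PS p χ m - T p χ (m + k) / ((m + k + 1 : ℕ) : ℂ) + T p χ m / ((m + 1 : ℕ) : ℂ)‖ ≤
      (p : ℝ) * (1 / ((m + 1 : ℕ) : ℝ) - 1 / ((m + k + 1 : ℕ) : ℝ)) := by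
  induction k with
  | zero => simp
  | succ k ih =>
    have h1 : PS p χ (m + (k + 1)) - PS p χ m - T p χ (m + (k + 1)) / ((m + (k + 1) + 1 : ℕ) : ℂ) +
        T p χ m / ((m + 1 : ℕ) : ℂ) =
        (PS p χ (m + k) - PS p χ m - T p χ (m + k) / ((m + k + 1 : ℕ) : ℂ) + T p χ m / ((m + 1 : ℕ) : ℂ)) +
        T p χ (m + k + 1) * (1 / ((m + k + 1 : ℕ) : ℂ) - 1 / ((m + k + 1 + 1 : ℕ) : ℂ)) := by
      have e : m + (k + 1) = m + k + 1 := by ring
      rw [e, PS_succ, T_succ]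
      have a1 : ((m + k + 1 : ℕ) : ℂ) ≠ 0 := by exact_mod_cast Nat.succ_ne_zero (m + k)
      have a2 : ((m + k + 1 + 1 : ℕ) : ℂ) ≠ 0 := by exact_mod_cast Nat.succ_ne_zero (m + k + 1)
      field_simp
      ring
    rw [h1]
    refine (norm_add_le _ _).trans ?_
    have h2 : ‖T p χ (m + k + 1) * (1 / ((m + k + 1 : ℕ) : ℂ) - 1 / ((m + k + 1 + 1 : ℕ) : ℂ))‖ ≤
        (p : ℝ) * (1 / ((m + k + 1 : ℕ) : ℝ) - 1 / ((m + k + 1 + 1 : ℕ) : ℝ)) := by
      rw [norm_mul]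
      have h3 : ‖(1 / ((m + k + 1 : ℕ) : ℂ) - 1 / ((m + k + 1 + 1 : ℕ) : ℂ))‖ =
          (1 / ((m + k + 1 : ℕ) : ℝ) - 1 / ((m + k + 1 + 1 : ℕ) : ℝ)) := by
        have h4 : (1 / ((m + k + 1 : ℕ) : ℂ) - 1 / ((m + k + 1 + 1 : ℕ) : ℂ)) =
            ((1 / ((m + k + 1 : ℕ) : ℝ) - 1 / ((m + k + 1 + 1 : ℕ) : ℝ) : ℝ) : ℂ) := by
          push_cast
          ring
        rw [h4, Complex.norm_real, Real.norm_of_nonneg]
        have h5 : (0 : ℝ) < ((m + k + 1 : ℕ) : ℝ) := by exact_mod_cast Nat.succ_pos _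
        have h6 : ((m + k + 1 : ℕ) : ℝ) ≤ ((m + k + 1 + 1 : ℕ) : ℝ) := by
          exact_mod_cast Nat.le_succ _
        have := one_div_le_one_div_of_le h5 h6
        linarith
      rw [h3]
      have h5 : (0 : ℝ) < ((m + k + 1 : ℕ) : ℝ) := by exact_mod_cast Nat.succ_pos _
      have h6 : ((m + k + 1 : ℕ) : ℝ) ≤ ((m + k + 1 + 1 : ℕ) : ℝ) := by
        exact_mod_cast Nat.le_succ _
      have h7 := one_div_le_one_div_of_le h5 h6
      exact mul_le_mul_of_nonneg_right (norm_T p χ hχ _) (by linarith)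
    have e : m + (k + 1) + 1 = m + k + 1 + 1 := by ring
    rw [e]
    linarith

theorem norm_PS_sub (p : ℕ) [Fact p.Prime] (χ : DirichletCharacter ℂ p) (hχ : χ ≠ 1) (m k : ℕ) :
    ‖PS p χ (m + k) - PS p χ m‖ ≤ 2 * (p : ℝ) / ((m + 1 : ℕ) : ℝ) := by
  have h := abel p χ hχ m k
  have h1 : ‖T p χ (m + k) / ((m + k + 1 : ℕ) : ℂ)‖ ≤ (p : ℝ) * (1 / ((m + k + 1 : ℕ) : ℝ)) := by
    rw [norm_div, Complex.norm_natCast, div_eq_mul_one_div]
    exact mul_le_mul_of_nonneg_right (norm_T p χ hχ _) (by positivity)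
  have h2 : ‖T p χ m / ((m + 1 : ℕ) : ℂ)‖ ≤ (p : ℝ) * (1 / ((m + 1 : ℕ) : ℝ)) := by
    rw [norm_div, Complex.norm_natCast, div_eq_mul_one_div]
    exact mul_le_mul_of_nonneg_right (norm_T p χ hχ _) (by positivity)
  have h3 : PS p χ (m + k) - PS p χ m =
      (PS p χ (m + k) - PS p χ m - T p χ (m + k) / ((m + k + 1 : ℕ) : ℂ) + T p χ m / ((m + 1 : ℕ) : ℂ)) +
      (T p χ (m + k) / ((m + k + 1 : ℕ) : ℂ) - T p χ m / ((m + 1 : ℕ) : ℂ)) := by ring
  rw [h3]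
  refine (norm_add_le _ _).trans ?_
  have h4 := norm_sub_le (T p χ (m + k) / ((m + k + 1 : ℕ) : ℂ)) (T p χ m / ((m + 1 : ℕ) : ℂ))
  have h5 : 2 * (p : ℝ) / ((m + 1 : ℕ) : ℝ) = 2 * ((p : ℝ) * (1 / ((m + 1 : ℕ) : ℝ))) := by ring
  rw [h5]
  linarith

theorem tendsto_PS (p : ℕ) [Fact p.Prime] (χ : DirichletCharacter ℂ p) (hχ : χ ≠ 1) :
    Tendsto (PS p χ) atTop (𝓝 (L1 p χ)) := by
  have hc : CauchySeq (PS p χ) := by
    refine cauchySeq_of_le_tendsto_0 (fun m : ℕ => 2 * (2 * (p : ℝ) / ((m + 1 : ℕ) : ℝ))) ?_ ?_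
    · intro n m N hn hm
      obtain ⟨i, rfl⟩ := Nat.exists_eq_add_of_le hn
      obtain ⟨j, rfl⟩ := Nat.exists_eq_add_of_le hm
      rw [dist_eq_norm]
      have h1 := norm_PS_sub p χ hχ N i
      have h2 := norm_PS_sub p χ hχ N j
      have h3 : PS p χ (N + i) - PS p χ (N + j) =
          (PS p χ (N + i) - PS p χ N) - (PS p χ (N + j) - PS p χ N) := by ring
      rw [h3]
      refine (norm_sub_le _ _).trans ?_
      linarith
    · have h1 : Tendsto (fun m : ℕ => 1 / (((m + 1 : ℕ) : ℝ))) atTop (𝓝 0) := by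
        have := tendsto_one_div_add_atTop_nhds_zero_nat (𝕜 := ℝ)
        simpa using this
      have h2 : (fun m : ℕ => 2 * (2 * (p : ℝ) / ((m + 1 : ℕ) : ℝ))) =
          fun m : ℕ => (4 * (p : ℝ)) * (1 / (((m + 1 : ℕ) : ℝ))) := by
        funext m
        ring
      rw [h2]
      simpa using h1.const_mul (4 * (p : ℝ))
  exact hc.tendsto_limUnder

theorem norm_L1_sub (p : ℕ) [Fact p.Prime] (χ : DirichletCharacter ℂ p) (hχ : χ ≠ 1) (m : ℕ) :
    ‖L1 p χ - PS p χ m‖ ≤ 2 * (p : ℝ) / ((m + 1 : ℕ) : ℝ) := by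
  have h1 : Tendsto (fun k : ℕ => ‖PS p χ (m + k) - PS p χ m‖) atTop (𝓝 ‖L1 p χ - PS p χ m‖) := by
    have h2 : Tendsto (fun k : ℕ => m + k) atTop atTop := by
      have h0 := tendsto_add_atTop_nat m
      simpa [add_comm] using h0
    exact (((tendsto_PS p χ hχ).comp h2).sub_const _).norm
  exact le_of_tendsto' h1 (fun k => norm_PS_sub p χ hχ m k)

end Pool.Agent.Lib.MP_5d8e72_nt
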