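import Pool.Agent.Lib.MP_5d8e72_nt.MeanSq

/-!
# MP_5d8e72_nt: the mean square of `L(1, χ) - A_N(χ)^2`
-/

set_option autoImplicit false

open Filter Topology Finset

namespace Pool.Agent.Lib.MP_5d8e72_nt

/-- the harmonic sum -/
noncomputable def HH (p : ℕ) : ℝ := ∑ k ∈ Finset.Icc 1 p, 1 / (k : ℝ)

theorem HH_nonneg (p : ℕ) : 0 ≤ HH p := Finset.sum_nonneg (fun _ _ => by positivity)

theorem HH_le (p : ℕ) : HH p ≤ 1 + Real.log p := by
  have h := harmonic_le_one_add_log p
  rw [harmonic_eq_sum_Icc] at h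
  push_cast at h
  unfold HH
  simpa [one_div] using h

theorem bb_nonneg (p N : ℕ) (r : ZMod p) : 0 ≤ bb p N r :=
  Finset.sum_nonneg (fun k _ => div_nonneg (by linarith [ee_le_one N (k * p + r.val)]) (by positivity))

theorem bb_le (p N : ℕ) [Fact p.Prime] (r : ZMod p) :
    bb p N r ≤ (if N < r.val then 1 / (r.val : ℝ) else 0) + HH p / p := by
  have hp : p.Prime := Fact.out
  have hp0 : (0 : ℝ) < p := by exact_mod_cast hp.pos
  unfold bb
  have h1 : p = 1 + (p - 1) := by have := hp.one_le; omega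
  have h2 : ∑ k ∈ Finset.range p, (1 - ee N (k * p + r.val)) / ((k * p + r.val : ℕ) : ℝ) =
      (1 - ee N r.val) / ((r.val : ℕ) : ℝ) +
        ∑ k ∈ Finset.Ico 1 p, (1 - ee N (k * p + r.val)) / ((k * p + r.val : ℕ) : ℝ) := by
    rw [Finset.range_eq_Ico, Finset.sum_eq_sum_Ico_succ_bot hp.pos]
    simp
  rw [h2]
  refine add_le_add ?_ ?_
  · split_ifs with h
    · have h3 := ee_nonneg N r.val
      have h4 : (0 : ℝ) < (r.val : ℝ) := by
        have : 0 < r.val := by omega
        exact_mod_cast this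
      rw [div_le_div_iff_of_pos_right h4]
      linarith
    · by_cases h0 : r.val = 0
      · rw [h0]; simp
      · rw [ee_eq_one h0 (by omega)]
        simp
  · unfold HH
    rw [Finset.sum_div]
    calc ∑ k ∈ Finset.Ico 1 p, (1 - ee N (k * p + r.val)) / ((k * p + r.val : ℕ) : ℝ)
        ≤ ∑ k ∈ Finset.Ico 1 p, 1 / (k : ℝ) / p := by
          refine Finset.sum_le_sum fun k hk => ?_
          rw [Finset.mem_Ico] at hk
          have hk0 : (0 : ℝ) < k := by exact_mod_cast hk.1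
          have h3 := ee_nonneg N (k * p + r.val)
          have h4 := ee_le_one N (k * p + r.val)
          rw [div_div]
          refine div_le_div₀ zero_le_one (by linarith) (by positivity) ?_
          push_cast
          have : (0 : ℝ) ≤ (r.val : ℝ) := by positivity
          linarith
      _ ≤ ∑ k ∈ Finset.Icc 1 p, 1 / (k : ℝ) / p := by
          refine Finset.sum_le_sum_of_subset_of_nonneg ?_ (fun _ _ _ => by positivity)
          intro k hk
          rw [Finset.mem_Ico] at hk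
          rw [Finset.mem_Icc]
          omega

theorem sum_bb_sq (p N : ℕ) [Fact p.Prime] :
    ∑ r : ZMod p, (bb p N r) ^ 2 ≤ 4 / ((N : ℝ) + 1) + 2 * HH p ^ 2 / p := by
  have hp : p.Prime := Fact.out
  have hp0 : (0 : ℝ) < p := by exact_mod_cast hp.pos
  have h1 : ∀ r : ZMod p, (bb p N r) ^ 2 ≤
      2 * (if N < r.val then 1 / (r.val : ℝ) else 0) ^ 2 + 2 * (HH p / p) ^ 2 := by
    intro r
    have h2 := bb_le p N r
    have h3 := bb_nonneg p N r
    have h4 : 0 ≤ (if N < r.val then 1 / (r.val : ℝ) else 0) := by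
      split_ifs <;> positivity
    have h5 : 0 ≤ HH p / p := div_nonneg (HH_nonneg p) hp0.le
    set u := (if N < r.val then 1 / (r.val : ℝ) else 0)
    set v := HH p / p
    have h6 : (bb p N r) ^ 2 ≤ (u + v) ^ 2 := pow_le_pow_left₀ h3 h2 2
    nlinarith [sq_nonneg (u - v)]
  have h2 : ∑ r : ZMod p, (if N < r.val then 1 / (r.val : ℝ) else 0) ^ 2 ≤ 2 / ((N : ℝ) + 1) := by
    have h3 : ∑ r : ZMod p, (if N < r.val then 1 / (r.val : ℝ) else 0) ^ 2 =
        ∑ j ∈ Finset.range p, (if N < j then 1 / (j : ℝ) else 0) ^ 2 := by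
      symm
      refine Finset.sum_nbij (fun j => (j : ZMod p)) ?_ ?_ ?_ ?_
      · intro j _; exact Finset.mem_univ _
      · intro i hi j hj hij
        simp only [Finset.coe_range, Set.mem_Iio] at hi hj
        have := congrArg ZMod.val hij
        rwa [ZMod.val_natCast_of_lt hi, ZMod.val_natCast_of_lt hj] at this
      · intro x _
        refine ⟨x.val, ?_, ?_⟩
        · simp only [Finset.coe_range, Set.mem_Iio]
          exact ZMod.val_lt _
        · exact ZMod.natCast_zmod_val x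
      · intro j hj
        rw [ZMod.val_natCast_of_lt (Finset.mem_range.1 hj)]
    rw [h3]
    have h4 : ∑ j ∈ Finset.range p, (if N < j then 1 / (j : ℝ) else 0) ^ 2 =
        ∑ j ∈ Finset.Ioo N p, ((j : ℝ) ^ 2)⁻¹ := by
      have h5 : ∀ j ∈ Finset.range p, (if N < j then 1 / (j : ℝ) else 0) ^ 2 =
          if N < j then ((j : ℝ) ^ 2)⁻¹ else 0 := by
        intro j _
        split_ifs
        · rw [div_pow, one_pow, one_div]
        · simp
      rw [Finset.sum_congr rfl h5, ← Finset.sum_filter]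
      refine Finset.sum_congr ?_ (fun _ _ => rfl)
      ext j
      simp only [Finset.mem_filter, Finset.mem_range, Finset.mem_Ioo]
      tauto
    rw [h4]
    exact sum_Ioo_inv_sq_le N p
  calc ∑ r : ZMod p, (bb p N r) ^ 2
      ≤ ∑ r : ZMod p, (2 * (if N < r.val then 1 / (r.val : ℝ) else 0) ^ 2 + 2 * (HH p / p) ^ 2) :=
        Finset.sum_le_sum (fun r _ => h1 r)
    _ = 2 * ∑ r : ZMod p, (if N < r.val then 1 / (r.val : ℝ) else 0) ^ 2 + p * (2 * (HH p / p) ^ 2) := by
        rw [Finset.sum_add_distrib, ← Finset.mul_sum, Finset.sum_const, Finset.card_univ, ZMod.card,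
          nsmul_eq_mul]
    _ ≤ 2 * (2 / ((N : ℝ) + 1)) + p * (2 * (HH p / p) ^ 2) := by linarith
    _ = 4 / ((N : ℝ) + 1) + 2 * HH p ^ 2 / p := by
        field_simp
        ring

theorem meanSq (p N : ℕ) [Fact p.Prime] (hN : N < p) :
    ∑ χ : DirichletCharacter ℂ p, ‖PS p χ (p * p - 1) - A p N χ ^ 2‖ ^ 2 ≤
      p * (4 / ((N : ℝ) + 1) + 2 * HH p ^ 2 / p) := by
  have hp : p.Prime := Fact.out
  have h1 : N * N ≤ p * p - 1 := by
    have : N * N < p * p := Nat.mul_lt_mul_of_lt_of_lt hN hN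
    omega
  have h2 : p * p - 1 + 1 = p * p := by
    have := Nat.mul_pos hp.pos hp.pos
    omega
  have h3 : ∀ χ : DirichletCharacter ℂ p, PS p χ (p * p - 1) - A p N χ ^ 2 =
      ∑ r : ZMod p, ((bb p N r : ℝ) : ℂ) * χ r := by
    intro χ
    rw [PS_sub_A_sq p N _ χ h1, h2, fold]
  simp only [h3]
  refine (parseval_le p (fun r => ((bb p N r : ℝ) : ℂ))).trans ?_
  refine mul_le_mul_of_nonneg_left ?_ (by positivity)
  have h4 : ∀ r : ZMod p, ‖((bb p N r : ℝ) : ℂ)‖ ^ 2 = (bb p N r) ^ 2 := by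
    intro r
    rw [Complex.norm_real, Real.norm_eq_abs, sq_abs]
  simp only [h4]
  exact sum_bb_sq p N

/-- the error -/
noncomputable def dl (p N : ℕ) : ℝ := 8 / ((N : ℝ) + 1) + 4 * HH p ^ 2 / p + 8 / (p : ℝ) ^ 2

open Classical in
theorem meanL (p N : ℕ) [Fact p.Prime] (hN : N < p) :
    ∑ χ ∈ (Finset.univ : Finset (DirichletCharacter ℂ p)).filter (fun χ => χ ≠ 1),
      ‖L1 p χ - A p N χ ^ 2‖ ^ 2 ≤ p * dl p N := by
  have hp : p.Prime := Fact.out
  have hp0 : (0 : ℝ) < p := by exact_mod_cast hp.pos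
  have h1 : ∀ χ ∈ (Finset.univ : Finset (DirichletCharacter ℂ p)).filter (fun χ => χ ≠ 1),
      ‖L1 p χ - A p N χ ^ 2‖ ^ 2 ≤ 2 * ‖PS p χ (p * p - 1) - A p N χ ^ 2‖ ^ 2 + 8 / (p : ℝ) ^ 2 := by
    intro χ hχ
    rw [Finset.mem_filter] at hχ
    have h2 := norm_L1_sub p χ hχ.2 (p * p - 1)
    have h3 : p * p - 1 + 1 = p * p := by
      have := Nat.mul_pos hp.pos hp.pos
      omega
    rw [h3] at h2
    have h4 : 2 * (p : ℝ) / ((p * p : ℕ) : ℝ) = 2 / p := by
      push_cast
      field_simp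
    rw [h4] at h2
    have h5 : L1 p χ - A p N χ ^ 2 = (L1 p χ - PS p χ (p * p - 1)) +
        (PS p χ (p * p - 1) - A p N χ ^ 2) := by ring
    have h6 := norm_add_le (L1 p χ - PS p χ (p * p - 1)) (PS p χ (p * p - 1) - A p N χ ^ 2)
    rw [← h5] at h6
    set x := ‖L1 p χ - PS p χ (p * p - 1)‖
    set y := ‖PS p χ (p * p - 1) - A p N χ ^ 2‖
    have hx : 0 ≤ x := norm_nonneg _
    have hy : 0 ≤ y := norm_nonneg _
    have h7 : ‖L1 p χ - A p N χ ^ 2‖ ^ 2 ≤ (x + y) ^ 2 := pow_le_pow_left₀ (norm_nonneg _) h6 2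
    have h8 : x ^ 2 ≤ (2 / (p : ℝ)) ^ 2 := pow_le_pow_left₀ hx h2 2
    have h9 : (2 / (p : ℝ)) ^ 2 = 4 / (p : ℝ) ^ 2 := by rw [div_pow]; norm_num
    have h10 : 8 / (p : ℝ) ^ 2 = 2 * (4 / (p : ℝ) ^ 2) := by ring
    rw [h10, ← h9]
    nlinarith [sq_nonneg (x - y)]
  have hcard : (((Finset.univ : Finset (DirichletCharacter ℂ p)).filter (fun χ => χ ≠ 1)).card : ℝ) ≤ p := by
    have h2 : ((Finset.univ : Finset (DirichletCharacter ℂ p)).filter (fun χ => χ ≠ 1)).card ≤
        Fintype.card (DirichletCharacter ℂ p) := Finset.card_le_univ _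
    have h3 : Fintype.card (DirichletCharacter ℂ p) = p.totient := by
      rw [← Nat.card_eq_fintype_card]
      exact DirichletCharacter.card_eq_totient_of_hasEnoughRootsOfUnity ℂ p
    rw [h3] at h2
    exact_mod_cast h2.trans (Nat.totient_le p)
  calc ∑ χ ∈ (Finset.univ : Finset (DirichletCharacter ℂ p)).filter (fun χ => χ ≠ 1),
        ‖L1 p χ - A p N χ ^ 2‖ ^ 2
      ≤ ∑ χ ∈ (Finset.univ : Finset (DirichletCharacter ℂ p)).filter (fun χ => χ ≠ 1),
        (2 * ‖PS p χ (p * p - 1) - A p N χ ^ 2‖ ^ 2 + 8 / (p : ℝ) ^ 2) := Finset.sum_le_sum h1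
    _ = 2 * ∑ χ ∈ (Finset.univ : Finset (DirichletCharacter ℂ p)).filter (fun χ => χ ≠ 1),
        ‖PS p χ (p * p - 1) - A p N χ ^ 2‖ ^ 2 +
        (((Finset.univ : Finset (DirichletCharacter ℂ p)).filter (fun χ => χ ≠ 1)).card : ℝ) *
          (8 / (p : ℝ) ^ 2) := by
        rw [Finset.sum_add_distrib, ← Finset.mul_sum, Finset.sum_const, nsmul_eq_mul]
    _ ≤ 2 * (p * (4 / ((N : ℝ) + 1) + 2 * HH p ^ 2 / p)) + p * (8 / (p : ℝ) ^ 2) := by
        refine add_le_add ?_ ?_
        · refine mul_le_mul_of_nonneg_left ?_ (by norm_num)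
          refine le_trans ?_ (meanSq p N hN)
          exact Finset.sum_le_sum_of_subset_of_nonneg (Finset.filter_subset _ _)
            (fun _ _ _ => by positivity)
        · exact mul_le_mul_of_nonneg_right hcard (by positivity)
    _ = p * dl p N := by
        unfold dl
        ring

theorem tendsto_dl (N : ℕ) : Tendsto (fun p : ℕ => dl p N) atTop (𝓝 (8 / ((N : ℝ) + 1))) := by
  have h1 : Tendsto (fun p : ℕ => 8 / (p : ℝ) ^ 2) atTop (𝓝 0) := by
    have h := tendsto_one_div_atTop_nhds_zero_nat (𝕜 := ℝ)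
    have h2 := (h.pow 2).const_mul 8
    simp only [ne_eq, OfNat.ofNat_ne_zero, not_false_eq_true, zero_pow, mul_zero] at h2
    refine h2.congr ?_
    intro p
    rw [div_pow, one_pow]
    ring
  have h2 : Tendsto (fun p : ℕ => (1 + Real.log p) ^ 2 / p) atTop (𝓝 0) := by
    have h3 : Tendsto (fun x : ℝ => (1 + Real.log x) ^ 2 / x) atTop (𝓝 0) := by
      have h4 : (fun x : ℝ => Real.log x ^ 2) =o[atTop] (fun x : ℝ => x) := Real.isLittleO_pow_log_id_atTop
      have h5 : (fun x : ℝ => Real.log x) =o[atTop] (fun x : ℝ => x) := Real.isLittleO_log_id_atTop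
      have h6 := h4.tendsto_div_nhds_zero
      have h7 := h5.tendsto_div_nhds_zero
      have h8 : Tendsto (fun x : ℝ => 1 / x) atTop (𝓝 0) := by
        simpa using tendsto_inv_atTop_zero (𝕜 := ℝ)
      have h9 := (h8.add (h7.const_mul 2)).add h6
      simp only [mul_zero, add_zero] at h9
      refine h9.congr ?_
      intro x
      ring
    exact h3.comp tendsto_natCast_atTop_atTop
  have h3 : Tendsto (fun p : ℕ => 4 * HH p ^ 2 / p) atTop (𝓝 0) := by
    have h4 := h2.const_mul 4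
    rw [mul_zero] at h4
    refine squeeze_zero (fun p => ?_) (fun p => ?_) h4
    · have := HH_nonneg p
      positivity
    · have h5 := HH_le p
      have h6 := HH_nonneg p
      have h7 : HH p ^ 2 ≤ (1 + Real.log p) ^ 2 := pow_le_pow_left₀ h6 h5 2
      rw [mul_div_assoc]
      refine mul_le_mul_of_nonneg_left ?_ (by norm_num)
      exact div_le_div_of_nonneg_right h7 (by positivity)
  have h4 := (tendsto_const_nhds (x := 8 / ((N : ℝ) + 1)) (f := (atTop : Filter ℕ))).add h3 |>.add h1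
  simp only [add_zero] at h4
  exact h4

end Pool.Agent.Lib.MP_5d8e72_nt
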