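import Pool.Agent.Lib.MP_5d8e72_nt.Defs

/-!
# MP_5d8e72_nt: orthogonality of the characters and mean squares
-/

set_option autoImplicit false

open Filter Topology Finset

namespace Pool.Agent.Lib.MP_5d8e72_nt

variable (p : ℕ) [Fact p.Prime]

/-- orthogonality -/
theorem orth (x y : ZMod p) :
    ∑ χ : DirichletCharacter ℂ p, χ x * (starRingEnd ℂ) (χ y) =
      if x = y ∧ y ≠ 0 then ((p : ℂ) - 1) else 0 := by
  classical
  have hp : p.Prime := Fact.out
  by_cases hy : y = 0
  · subst hy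
    simp only [ne_eq, not_true_eq_false, and_false, if_false]
    refine Finset.sum_eq_zero ?_
    intro χ _
    have h0 : χ (0 : ZMod p) = 0 := by
      have : ¬ IsUnit (0 : ZMod p) := not_isUnit_zero
      exact MulChar.map_nonunit χ this
    rw [h0]
    simp
  · have hu : IsUnit y := isUnit_iff_ne_zero.mpr hy
    have h := DirichletCharacter.sum_char_inv_mul_char_eq ℂ hu x
    have h1 : ∀ χ : DirichletCharacter ℂ p, χ x * (starRingEnd ℂ) (χ y) = χ y⁻¹ * χ x := by
      intro χ
      have h2 : (starRingEnd ℂ) (χ y) = χ y⁻¹ := by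
        have h3 := MulChar.star_apply χ y
        rw [MulChar.star_eq_inv, MulChar.inv_apply' χ y] at h3
        exact h3.symm
      rw [h2, mul_comm]
    simp only [h1]
    rw [h]
    by_cases hxy : x = y
    · subst hxy
      simp only [if_true, ne_eq, true_and, hy, not_false_eq_true]
      rw [Nat.totient_prime hp]
      push_cast [hp.one_le]
      ring
    · have hyx : ¬ y = x := fun h => hxy h.symm
      simp [hxy, hyx]

/-- Parseval -/
theorem parseval (b : ZMod p → ℂ) :
    ∑ χ : DirichletCharacter ℂ p, ‖∑ r : ZMod p, b r * χ r‖ ^ 2 =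
      ((p : ℝ) - 1) * ∑ r ∈ (Finset.univ : Finset (ZMod p)).erase 0, ‖b r‖ ^ 2 := by
  classical
  have key : ((∑ χ : DirichletCharacter ℂ p, ‖∑ r : ZMod p, b r * χ r‖ ^ 2 : ℝ) : ℂ) =
      (((p : ℝ) - 1) * ∑ r ∈ (Finset.univ : Finset (ZMod p)).erase 0, ‖b r‖ ^ 2 : ℝ) := by
    push_cast
    have h1 : ∀ χ : DirichletCharacter ℂ p, ((‖∑ r : ZMod p, b r * χ r‖ : ℂ)) ^ 2 =
        ∑ r : ZMod p, ∑ s : ZMod p, (b r * (starRingEnd ℂ) (b s)) * (χ r * (starRingEnd ℂ) (χ s)) := by
      intro χ
      rw [← Complex.mul_conj', map_sum, Finset.sum_mul_sum]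
      refine Finset.sum_congr rfl fun r _ => Finset.sum_congr rfl fun s _ => ?_
      rw [map_mul]
      ring
    simp only [h1]
    rw [Finset.sum_comm]
    have h2 : ∀ r : ZMod p, ∑ χ : DirichletCharacter ℂ p, ∑ s : ZMod p,
        (b r * (starRingEnd ℂ) (b s)) * (χ r * (starRingEnd ℂ) (χ s)) =
        if r = 0 then 0 else ((p : ℂ) - 1) * (‖b r‖ : ℂ) ^ 2 := by
      intro r
      rw [Finset.sum_comm]
      have h3 : ∀ s : ZMod p, ∑ χ : DirichletCharacter ℂ p,
          (b r * (starRingEnd ℂ) (b s)) * (χ r * (starRingEnd ℂ) (χ s)) =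
          if s = r then (if r = 0 then 0 else ((p : ℂ) - 1) * (‖b r‖ : ℂ) ^ 2) else 0 := by
        intro s
        rw [← Finset.mul_sum, orth]
        by_cases hrs : s = r
        · subst hrs
          by_cases h0 : s = 0
          · simp [h0]
          · simp only [ne_eq, h0, not_false_eq_true, and_self, if_true, if_false]
            rw [← Complex.mul_conj']
            ring
        · have : ¬ r = s := fun h => hrs h.symm
          simp [this, hrs]
      simp only [h3]
      rw [Finset.sum_ite_eq' Finset.univ r]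
      simp
    simp only [h2]
    rw [Finset.mul_sum, ← Finset.sum_erase (Finset.univ : Finset (ZMod p)) (a := 0)]
    · refine Finset.sum_congr rfl fun r hr => ?_
      rw [if_neg (Finset.ne_of_mem_erase hr)]
    · simp
  exact_mod_cast key

theorem parseval_le (b : ZMod p → ℂ) :
    ∑ χ : DirichletCharacter ℂ p, ‖∑ r : ZMod p, b r * χ r‖ ^ 2 ≤
      (p : ℝ) * ∑ r : ZMod p, ‖b r‖ ^ 2 := by
  classical
  rw [parseval]
  have hp : (1 : ℝ) ≤ p := by exact_mod_cast (Fact.out : p.Prime).one_le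
  have h1 : ∑ r ∈ (Finset.univ : Finset (ZMod p)).erase 0, ‖b r‖ ^ 2 ≤ ∑ r : ZMod p, ‖b r‖ ^ 2 :=
    Finset.sum_le_sum_of_subset_of_nonneg (Finset.erase_subset _ _) (fun _ _ _ => by positivity)
  have h2 : 0 ≤ ∑ r : ZMod p, ‖b r‖ ^ 2 := by positivity
  nlinarith [Finset.sum_nonneg (s := (Finset.univ : Finset (ZMod p)).erase 0)
    (f := fun r => ‖b r‖ ^ 2) (fun _ _ => by positivity)]

end Pool.Agent.Lib.MP_5d8e72_nt
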