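import Pool.Agent.Lib.MP_5d8e72_nt.Cmul
import Pool.Agent.Lib.MP_5d8e72_nt.Lval
import Pool.Agent.Lib.MP_5d8e72_nt.Pars

/-!
# MP_5d8e72_nt: `L(1, χ)` is close to the square of a short sum, in mean square
-/

set_option autoImplicit false

open Filter Topology Finset

namespace Pool.Agent.Lib.MP_5d8e72_nt

/-- the short sum -/
noncomputable def A (p N : ℕ) (χ : DirichletCharacter ℂ p) : ℂ :=
  ∑ n ∈ Finset.Icc 1 N, ((ca n : ℝ) : ℂ) * χ (n : ZMod p) / (n : ℂ)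

/-- the coefficients of the square of the short sum -/
noncomputable def ee (N n : ℕ) : ℝ :=
  ∑ x ∈ n.divisorsAntidiagonal.filter (fun x => x.1 ≤ N ∧ x.2 ≤ N), ca x.1 * ca x.2

theorem ee_nonneg (N n : ℕ) : 0 ≤ ee N n :=
  Finset.sum_nonneg (fun _ _ => mul_nonneg (ca_nonneg _) (ca_nonneg _))

theorem ee_le_one (N n : ℕ) : ee N n ≤ 1 := by
  by_cases hn : n = 0
  · subst hn
    simp [ee]
  · rw [← sum_ca_ca hn]
    exact Finset.sum_le_sum_of_subset_of_nonneg (Finset.filter_subset _ _)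
      (fun x _ _ => mul_nonneg (ca_nonneg _) (ca_nonneg _))

theorem ee_eq_one {N n : ℕ} (hn : n ≠ 0) (h : n ≤ N) : ee N n = 1 := by
  rw [← sum_ca_ca hn]
  unfold ee
  congr 1
  apply Finset.filter_true_of_mem
  intro x hx
  rw [Nat.mem_divisorsAntidiagonal] at hx
  have hpos : 0 < n := Nat.pos_of_ne_zero hn
  constructor
  · exact (Nat.le_of_dvd hpos (Dvd.intro _ hx.1)).trans h
  · exact (Nat.le_of_dvd hpos (Dvd.intro_left _ hx.1)).trans h

theorem ee_eq_zero {N n : ℕ} (h : N * N < n) : ee N n = 0 := by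
  unfold ee
  apply Finset.sum_eq_zero
  intro x hx
  exfalso
  rw [Finset.mem_filter, Nat.mem_divisorsAntidiagonal] at hx
  obtain ⟨⟨h1, _⟩, h2, h3⟩ := hx
  have := Nat.mul_le_mul h2 h3
  omega

/-- the square of the short sum -/
theorem A_sq (p N L : ℕ) (χ : DirichletCharacter ℂ p) (hL : N * N ≤ L) :
    A p N χ ^ 2 = ∑ n ∈ Finset.Icc 1 L, ((ee N n : ℝ) : ℂ) * χ (n : ZMod p) / (n : ℂ) := by
  classical
  unfold A
  rw [sq, Finset.sum_mul_sum, ← Finset.sum_product']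
  have h1 : ∀ n ∈ Finset.Icc 1 L, ((ee N n : ℝ) : ℂ) * χ (n : ZMod p) / (n : ℂ) =
      ∑ x ∈ (Finset.Icc 1 N ×ˢ Finset.Icc 1 N).filter (fun x => x.1 * x.2 = n),
        (((ca x.1 : ℝ) : ℂ) * χ (x.1 : ZMod p) / (x.1 : ℂ)) * (((ca x.2 : ℝ) : ℂ) * χ (x.2 : ZMod p) / (x.2 : ℂ)) := by
    intro n hn
    rw [Finset.mem_Icc] at hn
    unfold ee
    push_cast
    rw [Finset.sum_mul, Finset.sum_div]
    have h2 : n.divisorsAntidiagonal.filter (fun x => x.1 ≤ N ∧ x.2 ≤ N) =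
        (Finset.Icc 1 N ×ˢ Finset.Icc 1 N).filter (fun x => x.1 * x.2 = n) := by
      ext x
      simp only [Finset.mem_filter, Nat.mem_divisorsAntidiagonal, Finset.mem_product, Finset.mem_Icc]
      constructor
      · rintro ⟨⟨h3, h4⟩, h5, h6⟩
        have h7 : x.1 ≠ 0 := by rintro h; rw [h, zero_mul] at h3; exact h4 h3.symm
        have h8 : x.2 ≠ 0 := by rintro h; rw [h, mul_zero] at h3; exact h4 h3.symm
        exact ⟨⟨⟨Nat.one_le_iff_ne_zero.2 h7, h5⟩, ⟨Nat.one_le_iff_ne_zero.2 h8, h6⟩⟩, h3⟩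
      · rintro ⟨⟨⟨h3, h4⟩, ⟨h5, h6⟩⟩, h7⟩
        exact ⟨⟨h7, by omega⟩, h4, h6⟩
    rw [h2]
    refine Finset.sum_congr rfl fun x hx => ?_
    rw [Finset.mem_filter] at hx
    rw [← hx.2]
    push_cast
    rw [map_mul]
    ring
  rw [Finset.sum_congr rfl h1]
  rw [Finset.sum_fiberwise_of_maps_to]
  intro x hx
  rw [Finset.mem_product, Finset.mem_Icc, Finset.mem_Icc] at hx
  rw [Finset.mem_Icc]
  exact ⟨Nat.mul_pos hx.1.1 hx.2.1, (Nat.mul_le_mul hx.1.2 hx.2.2).trans hL⟩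

theorem PS_sub_A_sq (p N L : ℕ) (χ : DirichletCharacter ℂ p) (hL : N * N ≤ L) :
    PS p χ L - A p N χ ^ 2 =
      ∑ n ∈ Finset.range (L + 1), (((1 - ee N n) / n : ℝ) : ℂ) * χ (n : ZMod p) := by
  rw [A_sq p N L χ hL]
  unfold PS
  rw [← Finset.sum_sub_distrib, Finset.range_eq_Ico, Finset.sum_eq_sum_Ico_succ_bot (by omega)]
  have h0 : (((1 - ee N 0) / ((0 : ℕ) : ℝ) : ℝ) : ℂ) * χ ((0 : ℕ) : ZMod p) = 0 := by simp
  rw [h0, zero_add]
  refine Finset.sum_congr rfl fun n _ => ?_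
  push_cast
  ring

theorem sum_range_mul' {α : Type} [AddCommMonoid α] (f : ℕ → α) (a b : ℕ) :
    ∑ n ∈ Finset.range (a * b), f n = ∑ k ∈ Finset.range a, ∑ r ∈ Finset.range b, f (k * b + r) := by
  induction a with
  | zero => simp
  | succ a ih =>
    rw [add_mul, one_mul, Finset.sum_range_add, ih, Finset.sum_range_succ]

/-- the folded coefficients -/
noncomputable def bb (p N : ℕ) (r : ZMod p) : ℝ :=
  ∑ k ∈ Finset.range p, (1 - ee N (k * p + r.val)) / ((k * p + r.val : ℕ) : ℝ)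

theorem fold (p N : ℕ) [Fact p.Prime] (χ : DirichletCharacter ℂ p) :
    ∑ n ∈ Finset.range (p * p), (((1 - ee N n) / n : ℝ) : ℂ) * χ (n : ZMod p) =
      ∑ r : ZMod p, ((bb p N r : ℝ) : ℂ) * χ r := by
  rw [sum_range_mul', Finset.sum_comm]
  have h1 : ∀ r ∈ Finset.range p, ∑ k ∈ Finset.range p,
      (((1 - ee N (k * p + r)) / ((k * p + r : ℕ) : ℝ) : ℝ) : ℂ) * χ ((k * p + r : ℕ) : ZMod p) =
      ((bb p N (r : ZMod p) : ℝ) : ℂ) * χ (r : ZMod p) := by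
    intro r hr
    have hv : (r : ZMod p).val = r := ZMod.val_natCast_of_lt (Finset.mem_range.1 hr)
    unfold bb
    rw [hv]
    push_cast
    rw [Finset.sum_mul]
    refine Finset.sum_congr rfl fun k _ => ?_
    simp
  rw [Finset.sum_congr rfl h1]
  have h2 := sum_period p (fun x => ((bb p N x : ℝ) : ℂ) * χ x) 0
  simp only [zero_add] at h2
  exact h2

end Pool.Agent.Lib.MP_5d8e72_nt
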