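import Mathlib
import Pool.Agent.Lib.MP_7ed9c3_nt.AllN

/-!
# MP_5d8e72_nt: sums of the quadratic character
-/

set_option autoImplicit false

open Filter Topology Finset

namespace Pool.Agent.Lib.MP_5d8e72_nt

/-- the quadratic character modulo `p` -/
noncomputable def rho (p : ℕ) [Fact p.Prime] : MulChar (ZMod p) ℤ := quadraticChar (ZMod p)

variable (p : ℕ) [Fact p.Prime]

theorem ringChar_ne (h2 : p ≠ 2) : ringChar (ZMod p) ≠ 2 := by
  rw [ZMod.ringChar_zmod_n]
  exact h2

theorem two_ne (h2 : p ≠ 2) : (2 : ZMod p) ≠ 0 := by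
  have hp : p.Prime := Fact.out
  intro h
  have h3 : ((2 : ℕ) : ZMod p) = 0 := by exact_mod_cast h
  rw [ZMod.natCast_eq_zero_iff] at h3
  rcases (Nat.dvd_prime Nat.prime_two).1 h3 with h4 | h4
  · exact hp.one_lt.ne' h4
  · exact h2 h4

theorem three_ne (h3 : p ≠ 3) : (3 : ZMod p) ≠ 0 := by
  have hp : p.Prime := Fact.out
  intro h
  have h4 : ((3 : ℕ) : ZMod p) = 0 := by exact_mod_cast h
  rw [ZMod.natCast_eq_zero_iff] at h4
  rcases (Nat.dvd_prime Nat.prime_three).1 h4 with h5 | h5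
  · exact hp.one_lt.ne' h5
  · exact h3 h5

theorem rho_sq {x : ZMod p} (hx : x ≠ 0) : rho p (x ^ 2) = 1 := quadraticChar_sq_one' hx

theorem rho_mul_self {x : ZMod p} (hx : x ≠ 0) : rho p x * rho p x = 1 := by
  rw [← sq]
  exact quadraticChar_sq_one hx

theorem rho_zero : rho p 0 = 0 := MulChar.map_nonunit _ not_isUnit_zero

theorem rho_abs (x : ZMod p) : |rho p x| ≤ 1 := by
  by_cases hx : x = 0
  · rw [hx, rho_zero]; simp
  · rcases quadraticChar_dichotomy hx with h | h
    · unfold rho; rw [h]; simp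
    · unfold rho; rw [h]; simp

theorem card_sqrt (h2 : p ≠ 2) (w : ZMod p) :
    (((Finset.univ : Finset (ZMod p)).filter (fun r => r ^ 2 = w)).card : ℤ) = rho p w + 1 := by
  have h := quadraticChar_card_sqrts (F := ZMod p) (ringChar_ne p h2) w
  unfold rho
  rw [← h]
  congr 2
  ext x
  simp

/-- sums over squares -/
theorem sum_sq {R : Type} [CommRing R] (h2 : p ≠ 2) (g : ZMod p → R) :
    ∑ r : ZMod p, g (r ^ 2) = ∑ w : ZMod p, ((rho p w + 1 : ℤ) : R) * g w := by
  rw [← Finset.sum_fiberwise Finset.univ (fun r : ZMod p => r ^ 2) (fun r => g (r ^ 2))]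
  refine Finset.sum_congr rfl fun w _ => ?_
  rw [← card_sqrt p h2 w, Finset.sum_congr rfl (g := fun _ => g w)]
  · rw [Finset.sum_const, nsmul_eq_mul]
    push_cast
    ring
  · intro x hx
    rw [Finset.mem_filter] at hx
    rw [hx.2]

/-- the fibres of `a ↦ a + a⁻¹` -/
theorem card_fibre (h2 : p ≠ 2) (t : ZMod p) :
    (((Finset.univ : Finset ((ZMod p)ˣ)).filter
      (fun a : (ZMod p)ˣ => (a : ZMod p) + ((a⁻¹ : (ZMod p)ˣ) : ZMod p) = t)).card : ℤ) =
      rho p (t ^ 2 - 4) + 1 := by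
  rw [← card_sqrt p h2]
  congr 1
  have h20 := two_ne p h2
  refine Finset.card_bij (fun a _ => 2 * (a : ZMod p) - t) ?_ ?_ ?_
  · intro a ha
    rw [Finset.mem_filter] at ha ⊢
    refine ⟨Finset.mem_univ _, ?_⟩
    have h3 : (a : ZMod p) * ((a⁻¹ : (ZMod p)ˣ) : ZMod p) = 1 := a.mul_inv
    rw [← ha.2]
    linear_combination (-4 : ZMod p) * h3
  · intro a _ b _ hab
    have h3 : 2 * (a : ZMod p) = 2 * (b : ZMod p) := by
      have := hab
      simpa using this
    exact Units.ext (mul_left_cancel₀ h20 h3)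
  · intro x hx
    rw [Finset.mem_filter] at hx
    have h4 : ((x + t) / 2) * ((t - x) / 2) = 1 := by
      field_simp
      linear_combination (-1 : ZMod p) * hx.2
    have h5 : ((t - x) / 2) * ((x + t) / 2) = 1 := by rw [mul_comm]; exact h4
    refine ⟨⟨(x + t) / 2, (t - x) / 2, h4, h5⟩, ?_, ?_⟩
    · rw [Finset.mem_filter]
      refine ⟨Finset.mem_univ _, ?_⟩
      show (x + t) / 2 + (t - x) / 2 = t
      field_simp
      ring
    · show 2 * ((x + t) / 2) - t = x
      field_simp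
      ring

theorem sum_units {R : Type} [CommRing R] (h2 : p ≠ 2) (g : ZMod p → R) :
    ∑ a : (ZMod p)ˣ, g ((a : ZMod p) + ((a⁻¹ : (ZMod p)ˣ) : ZMod p)) =
      ∑ t : ZMod p, ((rho p (t ^ 2 - 4) + 1 : ℤ) : R) * g t := by
  rw [← Finset.sum_fiberwise Finset.univ
    (fun a : (ZMod p)ˣ => (a : ZMod p) + ((a⁻¹ : (ZMod p)ˣ) : ZMod p))
    (fun a => g ((a : ZMod p) + ((a⁻¹ : (ZMod p)ˣ) : ZMod p)))]
  refine Finset.sum_congr rfl fun t _ => ?_
  rw [← card_fibre p h2 t, Finset.sum_congr rfl (g := fun _ => g t)]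
  · rw [Finset.sum_const, nsmul_eq_mul]
    push_cast
    ring
  · intro x hx
    rw [Finset.mem_filter] at hx
    rw [hx.2]

theorem rho_sum (h2 : p ≠ 2) : ∑ w : ZMod p, rho p w = 0 :=
  quadraticChar_sum_zero (ringChar_ne p h2)

/-- the correlation of two translates -/
theorem corr (h2 : p ≠ 2) {α β : ZMod p} (h : α ≠ β) :
    ∑ w : ZMod p, rho p (w - α) * rho p (w - β) = -1 := by
  classical
  have h3 : ∑ z ∈ (Finset.univ : Finset (ZMod p)).erase 1, rho p z = -1 := by
    have h4 := Finset.sum_erase_add (Finset.univ : Finset (ZMod p)) (rho p) (Finset.mem_univ 1)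
    rw [rho_sum p h2, map_one] at h4
    linarith
  have h5 : ∑ w : ZMod p, rho p (w - α) * rho p (w - β) =
      ∑ w ∈ (Finset.univ : Finset (ZMod p)).erase β, rho p (w - α) * rho p (w - β) := by
    symm
    apply Finset.sum_erase
    rw [sub_self, rho_zero, mul_zero]
  rw [h5, ← h3]
  refine Finset.sum_bij (fun w _ => (w - α) / (w - β)) ?_ ?_ ?_ ?_
  · intro w hw
    rw [Finset.mem_erase] at hw ⊢
    have hwβ : w - β ≠ 0 := sub_ne_zero.2 hw.1
    refine ⟨?_, Finset.mem_univ _⟩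
    intro h6
    rw [div_eq_one_iff_eq hwβ] at h6
    apply h
    linear_combination (-1 : ZMod p) * h6
  · intro a ha b hb hab
    rw [Finset.mem_erase] at ha hb
    have ha' : a - β ≠ 0 := sub_ne_zero.2 ha.1
    have hb' : b - β ≠ 0 := sub_ne_zero.2 hb.1
    have h6 : (a - α) / (a - β) = (b - α) / (b - β) := hab
    rw [div_eq_div_iff ha' hb'] at h6
    have h7 : (α - β) * (a - b) = 0 := by linear_combination h6
    rcases mul_eq_zero.1 h7 with h8 | h8
    · exact absurd (sub_eq_zero.1 h8) h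
    · exact sub_eq_zero.1 h8
  · intro z hz
    rw [Finset.mem_erase] at hz
    have hz' : z - 1 ≠ 0 := sub_ne_zero.2 hz.1
    have hne : β - α ≠ 0 := sub_ne_zero.2 (fun h6 => h h6.symm)
    refine ⟨β + (β - α) / (z - 1), ?_, ?_⟩
    · rw [Finset.mem_erase]
      refine ⟨?_, Finset.mem_univ _⟩
      intro h6
      have h7 : (β - α) / (z - 1) = 0 := by linear_combination h6
      rw [div_eq_zero_iff] at h7
      rcases h7 with h8 | h8
      · exact hne h8
      · exact hz' h8
    · have h9 : β + (β - α) / (z - 1) - β = (β - α) / (z - 1) := by ring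
      have h10 : β + (β - α) / (z - 1) - α = z * ((β - α) / (z - 1)) := by
        field_simp
        ring
      show (β + (β - α) / (z - 1) - α) / (β + (β - α) / (z - 1) - β) = z
      rw [h9, h10]
      have h11 : (β - α) / (z - 1) ≠ 0 := div_ne_zero hne hz'
      field_simp
  · intro w hw
    rw [Finset.mem_erase] at hw
    have hwβ : w - β ≠ 0 := sub_ne_zero.2 hw.1
    have h6 : (w - α) * (w - β) = ((w - α) / (w - β)) * (w - β) ^ 2 := by
      field_simp
    rw [← map_mul, h6, map_mul, rho_sq p hwβ, mul_one]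

/-- the Weierstrass curve `y ^ 2 = x (x - α) (x - β)` -/
def WC (α β : ZMod p) : WeierstrassCurve (ZMod p) := ⟨0, -(α + β), 0, α * β, 0⟩

theorem WC_disc (α β : ZMod p) : (WC p α β).Δ = 16 * (α * β * (α - β)) ^ 2 := by
  unfold WC
  simp only [WeierstrassCurve.Δ, WeierstrassCurve.b₂, WeierstrassCurve.b₄, WeierstrassCurve.b₆,
    WeierstrassCurve.b₈]
  ring

theorem affCount_WC (h2 : p ≠ 2) (α β : ZMod p) :
    (MP7ed9c3.affCount (WC p α β) : ℤ) = p + ∑ w : ZMod p, rho p w * (rho p (w - α) * rho p (w - β)) := by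
  classical
  unfold MP7ed9c3.affCount
  have h1 : Nat.card {q : ZMod p × ZMod p // q.2 ^ 2 + (WC p α β).a₁ * q.1 * q.2 + (WC p α β).a₃ * q.2
      = q.1 ^ 3 + (WC p α β).a₂ * q.1 ^ 2 + (WC p α β).a₄ * q.1 + (WC p α β).a₆} =
      ∑ w : ZMod p, ((Finset.univ : Finset (ZMod p)).filter
        (fun r => r ^ 2 = w * ((w - α) * (w - β)))).card := by
    rw [Nat.card_eq_fintype_card, Fintype.card_subtype]
    rw [Finset.card_eq_sum_card_fiberwise (f := fun q : ZMod p × ZMod p => q.1)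
      (t := (Finset.univ : Finset (ZMod p))) (fun _ _ => Finset.mem_coe.2 (Finset.mem_univ _))]
    refine Finset.sum_congr rfl fun w _ => ?_
    refine Finset.card_bij (fun q _ => q.2) ?_ ?_ ?_
    · intro q hq
      rw [Finset.mem_filter, Finset.mem_filter] at hq
      rw [Finset.mem_filter]
      refine ⟨Finset.mem_univ _, ?_⟩
      obtain ⟨⟨_, h3⟩, h4⟩ := hq
      unfold WC at h3
      simp only at h3
      rw [← h4]
      linear_combination h3
    · intro a ha b hb hab
      rw [Finset.mem_filter] at ha hb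
      exact Prod.ext (ha.2.trans hb.2.symm) hab
    · intro r hr
      rw [Finset.mem_filter] at hr
      refine ⟨(w, r), ?_, rfl⟩
      rw [Finset.mem_filter, Finset.mem_filter]
      refine ⟨⟨Finset.mem_univ _, ?_⟩, rfl⟩
      unfold WC
      simp only
      linear_combination hr.2
  rw [h1]
  push_cast
  have h3 : ∀ w ∈ (Finset.univ : Finset (ZMod p)),
      ((((Finset.univ : Finset (ZMod p)).filter
        (fun r => r ^ 2 = w * ((w - α) * (w - β)))).card : ℕ) : ℤ) =
      rho p w * (rho p (w - α) * rho p (w - β)) + 1 := by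
    intro w _
    rw [card_sqrt p h2, map_mul, map_mul]
  rw [Finset.sum_congr rfl h3, Finset.sum_add_distrib, Finset.sum_const, Finset.card_univ,
    ZMod.card, nsmul_eq_mul]
  ring

/-- the Hasse bound -/
theorem cubic (h2 : p ≠ 2) (h3 : p ≠ 3) {α β : ZMod p} (hα : α ≠ 0) (hβ : β ≠ 0) (h : α ≠ β) :
    (∑ w : ZMod p, rho p w * (rho p (w - α) * rho p (w - β))) ^ 2 ≤ 4 * (p : ℤ) := by
  have h4 : (WC p α β).Δ ≠ 0 := by
    rw [WC_disc]
    have h16 : (16 : ZMod p) ≠ 0 := by
      have : (16 : ZMod p) = 2 ^ 4 := by norm_num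
      rw [this]
      exact pow_ne_zero _ (two_ne p h2)
    exact mul_ne_zero h16 (pow_ne_zero _ (mul_ne_zero (mul_ne_zero hα hβ) (sub_ne_zero.2 h)))
  have h5 := MP7ed9c3.hasseAll (ZMod p) (WC p α β) (two_ne p h2) (three_ne p h3) h4
  rw [affCount_WC p h2, Nat.card_eq_fintype_card, ZMod.card] at h5
  have h6 : ((p : ℤ) - (p + ∑ w : ZMod p, rho p w * (rho p (w - α) * rho p (w - β)))) ^ 2 =
      (∑ w : ZMod p, rho p w * (rho p (w - α) * rho p (w - β))) ^ 2 := by ring
  rwa [h6] at h5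

end Pool.Agent.Lib.MP_5d8e72_nt
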