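import Pool.Agent.Lib.MP_5d8e72_nt.Lim

/-!
# MP_5d8e72_nt: explicit error terms
-/

set_option autoImplicit false

open Filter Topology Finset

namespace Pool.Agent.Lib.MP_5d8e72_nt

/-- the size of the error -/
noncomputable def Er (p : ℕ) : ℝ := (1 + Real.log p) ^ 2 / √(p : ℝ)

theorem tail_le (N : ℕ) : |∑ n ∈ Finset.Icc 1 N, fa n - CC| ≤ 2 / ((N : ℝ) + 1) := by
  have h1 : Tendsto (fun K : ℕ => |∑ n ∈ Finset.Icc 1 N, fa n - ∑ n ∈ Finset.Icc 1 K, fa n|) atTop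
      (𝓝 |∑ n ∈ Finset.Icc 1 N, fa n - CC|) := (tendsto_CC.const_sub _).abs
  refine le_of_tendsto h1 ?_
  filter_upwards [eventually_ge_atTop N] with K hK
  have h2 : ∑ n ∈ Finset.Icc 1 K, fa n = ∑ n ∈ Finset.Icc 1 N, fa n + ∑ n ∈ Finset.Ioo N (K + 1), fa n := by
    rw [← Finset.sum_union]
    · congr 1
      ext n
      simp only [Finset.mem_Icc, Finset.mem_union, Finset.mem_Ioo]
      omega
    · rw [Finset.disjoint_left]
      intro n h3 h4
      rw [Finset.mem_Icc] at h3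
      rw [Finset.mem_Ioo] at h4
      omega
  rw [h2]
  have h3 : 0 ≤ ∑ n ∈ Finset.Ioo N (K + 1), fa n := Finset.sum_nonneg (fun n _ => fa_nonneg n)
  have h4 : ∑ n ∈ Finset.Ioo N (K + 1), fa n ≤ 2 / ((N : ℝ) + 1) := by
    refine le_trans (Finset.sum_le_sum fun n _ => ?_) (sum_Ioo_inv_sq_le N (K + 1))
    have h5 := fa_le n
    rwa [one_div] at h5
  have h5 : ∑ n ∈ Finset.Icc 1 N, fa n - (∑ n ∈ Finset.Icc 1 N, fa n + ∑ n ∈ Finset.Ioo N (K + 1), fa n) =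
      - ∑ n ∈ Finset.Ioo N (K + 1), fa n := by ring
  rw [h5, abs_neg, abs_of_nonneg h3]
  exact h4

theorem sum_c_le (p N : ℕ) (hN : N ≤ p) : ∑ n ∈ Finset.Icc 1 N, ca n / (n : ℝ) ≤ HH p := by
  unfold HH
  calc ∑ n ∈ Finset.Icc 1 N, ca n / (n : ℝ) ≤ ∑ n ∈ Finset.Icc 1 N, 1 / (n : ℝ) :=
        Finset.sum_le_sum fun n _ => div_le_div_of_nonneg_right (ca_le_one n) (by positivity)
    _ ≤ ∑ n ∈ Finset.Icc 1 p, 1 / (n : ℝ) :=
        Finset.sum_le_sum_of_subset_of_nonneg (Finset.Icc_subset_Icc_right hN)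
          (fun _ _ _ => by positivity)

theorem short_le (p N : ℕ) [Fact p.Prime] (hN : 2 * N < p) (w : DirichletCharacter ℂ p → ℝ)
    (horth : ∀ a b : ℕ, 1 ≤ a → 1 ≤ b → a + b < p →
      ‖∑ χ ∈ nt p, (w χ : ℂ) * (χ (a : ZMod p) * (starRingEnd ℂ) (χ (b : ZMod p))) -
        (if a = b then 1 else 0)‖ ≤ 8 / √(p : ℝ)) :
    |∑ χ ∈ nt p, w χ * ‖A p N χ‖ ^ 2 - ∑ n ∈ Finset.Icc 1 N, fa n| ≤ HH p ^ 2 * (8 / √(p : ℝ)) := by
  have h1 : ((∑ n ∈ Finset.Icc 1 N, fa n : ℝ) : ℂ) =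
      ∑ m ∈ Finset.Icc 1 N, ∑ n ∈ Finset.Icc 1 N, (((ca m / m) * (ca n / n) : ℝ) : ℂ) *
        (if m = n then 1 else 0) := by
    push_cast
    refine Finset.sum_congr rfl fun m hm => ?_
    rw [Finset.sum_eq_single m]
    · rw [if_pos rfl, fa_apply]
      push_cast
      ring
    · intro n _ hn
      rw [if_neg (fun h => hn h.symm), mul_zero]
    · intro h
      exact absurd hm h
  have h2 : ‖((∑ χ ∈ nt p, w χ * ‖A p N χ‖ ^ 2 : ℝ) : ℂ) - ((∑ n ∈ Finset.Icc 1 N, fa n : ℝ) : ℂ)‖ ≤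
      HH p ^ 2 * (8 / √(p : ℝ)) := by
    rw [sum_w_A, h1, ← Finset.sum_sub_distrib]
    calc ‖∑ m ∈ Finset.Icc 1 N, (∑ n ∈ Finset.Icc 1 N, (((ca m / m) * (ca n / n) : ℝ) : ℂ) *
            ∑ χ ∈ nt p, (w χ : ℂ) * (χ (m : ZMod p) * (starRingEnd ℂ) (χ (n : ZMod p))) -
            ∑ n ∈ Finset.Icc 1 N, (((ca m / m) * (ca n / n) : ℝ) : ℂ) * (if m = n then 1 else 0))‖
        ≤ ∑ m ∈ Finset.Icc 1 N, ∑ n ∈ Finset.Icc 1 N, ((ca m / m) * (ca n / n)) * (8 / √(p : ℝ)) := by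
          refine (norm_sum_le _ _).trans (Finset.sum_le_sum fun m hm => ?_)
          rw [← Finset.sum_sub_distrib]
          refine (norm_sum_le _ _).trans (Finset.sum_le_sum fun n hn => ?_)
          rw [Finset.mem_Icc] at hm hn
          rw [← mul_sub, norm_mul, Complex.norm_real, Real.norm_eq_abs]
          have h3 : 0 ≤ (ca m / m) * (ca n / n) :=
            mul_nonneg (div_nonneg (ca_nonneg m) (by positivity)) (div_nonneg (ca_nonneg n) (by positivity))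
          rw [abs_of_nonneg h3]
          exact mul_le_mul_of_nonneg_left (horth m n hm.1 hn.1 (by omega)) h3
      _ = (∑ m ∈ Finset.Icc 1 N, ca m / m) ^ 2 * (8 / √(p : ℝ)) := by
          rw [sq, Finset.sum_mul_sum, Finset.sum_mul]
          refine Finset.sum_congr rfl fun m _ => ?_
          rw [Finset.sum_mul]
      _ ≤ HH p ^ 2 * (8 / √(p : ℝ)) := by
          refine mul_le_mul_of_nonneg_right ?_ (by positivity)
          exact pow_le_pow_left₀ (Finset.sum_nonneg fun n _ => div_nonneg (ca_nonneg n) (by positivity))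
            (sum_c_le p N (by omega)) 2
  rw [← Complex.ofReal_sub, Complex.norm_real, Real.norm_eq_abs] at h2
  exact h2

/-- the quantitative form of Lemma G -/
theorem quant (p : ℕ) [Fact p.Prime] (h3 : 3 < p) (B : ℝ) (hB : 0 ≤ B)
    (w : DirichletCharacter ℂ p → ℝ) (h0 : ∀ χ, χ ≠ 1 → 0 ≤ w χ) (h1 : ∀ χ, χ ≠ 1 → w χ ≤ B / p)
    (horth : ∀ a b : ℕ, 1 ≤ a → 1 ≤ b → a + b < p →
      ‖∑ χ ∈ nt p, (w χ : ℂ) * (χ (a : ZMod p) * (starRingEnd ℂ) (χ (b : ZMod p))) -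
        (if a = b then 1 else 0)‖ ≤ 8 / √(p : ℝ)) :
    |∑ χ ∈ nt p, w χ * ‖L1 p χ‖ - CC| ≤ (6 * B + 12) * Er p := by
  have hp : p.Prime := Fact.out
  obtain ⟨N, hN⟩ : ∃ N, p = 2 * N + 1 := by
    rcases hp.eq_two_or_odd with h | h
    · omega
    · exact ⟨p / 2, by omega⟩
  have hp1 : (1 : ℝ) ≤ p := by exact_mod_cast (by omega : 1 ≤ p)
  have hp0 : (0 : ℝ) < p := by linarith
  obtain ⟨s1, s2, s3⟩ := sqrt_facts hp1
  have hl : 0 ≤ Real.log p := Real.log_nonneg hp1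
  have e1 := diff_le p N (by omega) B w h0 h1 hB
  have e2 := short_le p N (by omega) w horth
  have e3 := tail_le N
  have hH := HH_le p
  have hH0 := HH_nonneg p
  set l := 1 + Real.log (p : ℝ) with hlE
  have hl1 : 1 ≤ l := by linarith
  have hNr : (p : ℝ) = 2 * N + 1 := by rw [hN]; push_cast; ring
  have hN1 : (p : ℝ) / 2 ≤ (N : ℝ) + 1 := by linarith
  have hN2 : (0 : ℝ) < (N : ℝ) + 1 := by positivity
  have hH2 : HH p ^ 2 ≤ l ^ 2 := pow_le_pow_left₀ hH0 hH 2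
  have hl2 : 1 ≤ l ^ 2 := one_le_pow₀ hl1
  have hll : l ≤ l ^ 2 := by nlinarith
  set s := √(p : ℝ) with hsE
  have hs0 : 0 < s := by linarith
  -- the mean square error
  have f1 : dl p N ≤ (6 * (l / s)) ^ 2 := by
    unfold dl
    have g1 : 8 / ((N : ℝ) + 1) ≤ 16 / p := by
      rw [div_le_div_iff₀ hN2 hp0]
      linarith
    have g2 : 4 * HH p ^ 2 / p ≤ 4 * l ^ 2 / p := by
      rw [div_le_div_iff_of_pos_right hp0]
      linarith
    have g3 : 8 / (p : ℝ) ^ 2 ≤ 8 / p := by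
      rw [div_le_div_iff₀ (by positivity) hp0]
      nlinarith
    have g4 : (6 * (l / s)) ^ 2 = 36 * l ^ 2 / p := by
      rw [mul_pow, div_pow, sq s, s3]
      ring
    rw [g4]
    calc 8 / ((N : ℝ) + 1) + 4 * HH p ^ 2 / p + 8 / (p : ℝ) ^ 2
        ≤ 16 / p + 4 * l ^ 2 / p + 8 / p := by linarith
      _ = (16 + 4 * l ^ 2 + 8) / p := by ring
      _ ≤ 36 * l ^ 2 / p := by
          rw [div_le_div_iff_of_pos_right hp0]
          linarith
  have f2 : √(dl p N) ≤ 6 * (l / s) := by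
    rw [Real.sqrt_le_left (by positivity)]
    exact f1
  have f3 : l / s ≤ Er p := by
    unfold Er
    rw [div_le_div_iff_of_pos_right hs0]
    exact hll
  have f4 : 2 / ((N : ℝ) + 1) ≤ 4 * Er p := by
    have g1 : 2 / ((N : ℝ) + 1) ≤ 4 / p := by
      rw [div_le_div_iff₀ hN2 hp0]
      linarith
    have g2 : 4 / (p : ℝ) ≤ 4 / s := by
      rw [div_le_div_iff₀ hp0 hs0]
      linarith
    have g3 : 4 / s ≤ 4 * Er p := by
      unfold Er
      rw [← mul_div_assoc, div_le_div_iff_of_pos_right hs0]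
      linarith
    linarith
  have f5 : HH p ^ 2 * (8 / s) ≤ 8 * Er p := by
    unfold Er
    rw [← mul_div_assoc, ← mul_div_assoc, div_le_div_iff_of_pos_right hs0]
    linarith
  have f6 : B * √(dl p N) ≤ 6 * B * Er p := by
    calc B * √(dl p N) ≤ B * (6 * Er p) := mul_le_mul_of_nonneg_left (by linarith) hB
      _ = 6 * B * Er p := by ring
  have h4 := abs_le.1 e1
  have h5 := abs_le.1 e2
  have h6 := abs_le.1 e3
  rw [abs_le]
  constructor <;> linarith [h4.1, h4.2, h5.1, h5.2, h6.1, h6.2]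

theorem bound2 (p : ℕ) [Fact p.Prime] {m n : ℕ} (hm : 1 ≤ m) (hn : 1 ≤ n)
    (h : m + n < p) :
    ‖∑ χ ∈ nt p, ((ev p χ / (p : ℝ) : ℝ) : ℂ) *
      (χ (m : ZMod p) * (starRingEnd ℂ) (χ (n : ZMod p))) - (if m = n then 1 else 0)‖ ≤
      8 / √(p : ℝ) := by
  rw [val2 p hm hn h]
  have h2 : (if m = n then (1 : ℂ) else 0) = ((if m = n then 1 else 0 : ℝ) : ℂ) := by
    split_ifs <;> simp
  rw [h2, ← Complex.ofReal_sub, Complex.norm_real, Real.norm_eq_abs]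
  have hp1 : (1 : ℝ) ≤ (p : ℝ) := by exact_mod_cast (by omega : 1 ≤ p)
  obtain ⟨s1, s2, s3⟩ := sqrt_facts hp1
  have hp0 : (0 : ℝ) < (p : ℝ) := by linarith
  have hs0 : 0 < √(p : ℝ) := by linarith
  have h4 : ((p : ℝ) - 1) * (if m = n then 1 else 0) - 2 =
      (p : ℝ) * (if m = n then 1 else 0) - (2 + (if m = n then 1 else 0)) := by
    split_ifs <;> ring
  have h5 : (((p : ℝ) - 1) * (if m = n then 1 else 0) - 2) / (p : ℝ) -
      (if m = n then 1 else 0) = -((2 + (if m = n then 1 else 0)) / (p : ℝ)) := by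
    rw [h4]
    field_simp
    ring
  rw [h5, abs_neg, abs_div, abs_of_pos hp0, div_le_div_iff₀ hp0 hs0]
  have h6 : |(2 + (if m = n then 1 else 0) : ℝ)| ≤ 8 := by
    split_ifs <;> norm_num
  exact mul_le_mul h6 s2 hs0.le (by norm_num)

theorem bound1' (p : ℕ) [Fact p.Prime] (h3 : 3 < p) {m n : ℕ} (hm : 1 ≤ m) (hn : 1 ≤ n)
    (h : m + n < p) :
    ‖∑ χ ∈ nt p, ((‖S p χ‖ ^ 2 / (p : ℝ) ^ 2 : ℝ) : ℂ) *
      (χ (m : ZMod p) * (starRingEnd ℂ) (χ (n : ZMod p))) - (if m = n then 1 else 0)‖ ≤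
      8 / √(p : ℝ) := by
  rw [val1 p (by omega) hm hn h]
  have h2 : (if m = n then (1 : ℂ) else 0) = ((if m = n then 1 else 0 : ℝ) : ℂ) := by
    split_ifs <;> simp
  rw [h2, ← Complex.ofReal_sub, Complex.norm_real, Real.norm_eq_abs]
  exact bound1 p h3 hm hn h

end Pool.Agent.Lib.MP_5d8e72_nt
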