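import Pool.Agent.Lib.MP_5d8e72_nt.Gen
import Pool.Agent.Lib.MP_5d8e72_nt.QSum

/-!
# MP_5d8e72_nt: the correlations of `|S(χ)|^2`
-/

set_option autoImplicit false

open Filter Topology Finset

namespace Pool.Agent.Lib.MP_5d8e72_nt

variable (p : ℕ) [Fact p.Prime]

/-- the second form of `S(χ)` -/
noncomputable def TT (χ : DirichletCharacter ℂ p) : ℂ :=
  ∑ t : ZMod p, ((rho p (t ^ 2 - 4) : ℤ) : ℂ) * χ t

theorem S_eq (h2 : p ≠ 2) (χ : DirichletCharacter ℂ p) (hχ : χ ≠ 1) : S p χ = TT p χ := by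
  unfold S TT
  rw [sum_units p h2 (fun x => χ x)]
  push_cast
  simp only [add_mul, one_mul, Finset.sum_add_distrib]
  rw [MulChar.sum_eq_zero_of_ne_one hχ, add_zero]

/-- Parseval for two functions -/
theorem parseval2 (b c : ZMod p → ℂ) :
    ∑ χ : DirichletCharacter ℂ p,
      (∑ r : ZMod p, b r * χ r) * (starRingEnd ℂ) (∑ s : ZMod p, c s * χ s) =
      ((p : ℂ) - 1) * ∑ r ∈ (Finset.univ : Finset (ZMod p)).erase 0,
        b r * (starRingEnd ℂ) (c r) := by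
  classical
  have h1 : ∀ χ : DirichletCharacter ℂ p,
      (∑ r : ZMod p, b r * χ r) * (starRingEnd ℂ) (∑ s : ZMod p, c s * χ s) =
      ∑ r : ZMod p, ∑ s : ZMod p, (b r * (starRingEnd ℂ) (c s)) * (χ r * (starRingEnd ℂ) (χ s)) := by
    intro χ
    rw [map_sum, Finset.sum_mul_sum]
    refine Finset.sum_congr rfl fun r _ => Finset.sum_congr rfl fun s _ => ?_
    rw [map_mul]
    ring
  simp only [h1]
  rw [Finset.sum_comm]
  have h2 : ∀ r : ZMod p, ∑ χ : DirichletCharacter ℂ p, ∑ s : ZMod p,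
      (b r * (starRingEnd ℂ) (c s)) * (χ r * (starRingEnd ℂ) (χ s)) =
      if r = 0 then 0 else ((p : ℂ) - 1) * (b r * (starRingEnd ℂ) (c r)) := by
    intro r
    rw [Finset.sum_comm]
    have h3 : ∀ s : ZMod p, ∑ χ : DirichletCharacter ℂ p,
        (b r * (starRingEnd ℂ) (c s)) * (χ r * (starRingEnd ℂ) (χ s)) =
        if s = r then (if r = 0 then 0 else ((p : ℂ) - 1) * (b r * (starRingEnd ℂ) (c r))) else 0 := by
      intro s
      rw [← Finset.mul_sum, orth]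
      by_cases hrs : s = r
      · subst hrs
        by_cases h0 : s = 0
        · simp [h0]
        · simp only [ne_eq, h0, not_false_eq_true, and_self, if_true, if_false]
          ring
      · have : ¬ r = s := fun h => hrs h.symm
        simp [this, hrs]
    simp only [h3]
    rw [Finset.sum_ite_eq' Finset.univ r]
    simp
  simp only [h2]
  rw [Finset.mul_sum, ← Finset.sum_erase (Finset.univ : Finset (ZMod p)) (a := 0)]
  · refine Finset.sum_congr rfl fun r hr => ?_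
    rw [if_neg (Finset.ne_of_mem_erase hr)]
  · simp

theorem TT_mul {m : ZMod p} (hm : m ≠ 0) (χ : DirichletCharacter ℂ p) :
    TT p χ * χ m = ∑ r : ZMod p, ((rho p (r ^ 2 - 4 * m ^ 2) : ℤ) : ℂ) * χ r := by
  unfold TT
  rw [← Equiv.sum_comp (Equiv.mulRight₀ m hm)
    (fun r : ZMod p => ((rho p (r ^ 2 - 4 * m ^ 2) : ℤ) : ℂ) * χ r), Finset.sum_mul]
  refine Finset.sum_congr rfl fun t _ => ?_
  have h1 : (t * m) ^ 2 - 4 * m ^ 2 = (t ^ 2 - 4) * m ^ 2 := by ring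
  rw [Equiv.mulRight₀_apply, h1, map_mul (rho p), rho_sq p hm, mul_one, map_mul χ]
  ring

/-- the correlations -/
noncomputable def EE (m n : ZMod p) : ℤ :=
  ∑ r ∈ (Finset.univ : Finset (ZMod p)).erase 0,
    rho p (r ^ 2 - 4 * m ^ 2) * rho p (r ^ 2 - 4 * n ^ 2)

theorem sum_TT {m n : ZMod p} (hm : m ≠ 0) (hn : n ≠ 0) :
    ∑ χ : DirichletCharacter ℂ p, ((‖TT p χ‖ ^ 2 : ℝ) : ℂ) * (χ m * (starRingEnd ℂ) (χ n)) =
      ((p : ℂ) - 1) * ((EE p m n : ℤ) : ℂ) := by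
  have h1 := parseval2 p (fun r => ((rho p (r ^ 2 - 4 * m ^ 2) : ℤ) : ℂ))
    (fun r => ((rho p (r ^ 2 - 4 * n ^ 2) : ℤ) : ℂ))
  have h2 : ∀ χ : DirichletCharacter ℂ p,
      ((‖TT p χ‖ ^ 2 : ℝ) : ℂ) * (χ m * (starRingEnd ℂ) (χ n)) =
      (∑ r : ZMod p, ((rho p (r ^ 2 - 4 * m ^ 2) : ℤ) : ℂ) * χ r) *
        (starRingEnd ℂ) (∑ s : ZMod p, ((rho p (s ^ 2 - 4 * n ^ 2) : ℤ) : ℂ) * χ s) := by
    intro χ
    rw [← TT_mul p hm, ← TT_mul p hn, map_mul]
    push_cast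
    rw [← Complex.mul_conj']
    ring
  simp only [h2]
  rw [h1]
  unfold EE
  push_cast
  congr 1
  refine Finset.sum_congr rfl fun r _ => ?_
  rw [map_intCast (starRingEnd ℂ)]

theorem four_ne (h2 : p ≠ 2) : (4 : ZMod p) ≠ 0 := by
  have h : (4 : ZMod p) = 2 ^ 2 := by norm_num
  rw [h]
  exact pow_ne_zero _ (two_ne p h2)

theorem EE_add (h2 : p ≠ 2) {m n : ZMod p} (hm : m ≠ 0) (hn : n ≠ 0) :
    EE p m n + 1 = ∑ w : ZMod p, (rho p w + 1) * (rho p (w - 4 * m ^ 2) * rho p (w - 4 * n ^ 2)) := by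
  have h3 := sum_sq p h2 (fun w => rho p (w - 4 * m ^ 2) * rho p (w - 4 * n ^ 2))
  simp only [Int.cast_id] at h3
  rw [← h3]
  have h4 := Finset.sum_erase_add (Finset.univ : Finset (ZMod p))
    (fun r => rho p (r ^ 2 - 4 * m ^ 2) * rho p (r ^ 2 - 4 * n ^ 2)) (Finset.mem_univ 0)
  rw [← h4]
  unfold EE
  congr 1
  rw [← map_mul]
  have h5 : ((0 : ZMod p) ^ 2 - 4 * m ^ 2) * (0 ^ 2 - 4 * n ^ 2) = (4 * m * n) ^ 2 := by ring
  rw [h5, rho_sq p (mul_ne_zero (mul_ne_zero (four_ne p h2) hm) hn)]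

theorem EE_ne (h2 : p ≠ 2) (h3 : p ≠ 3) {m n : ZMod p} (hm : m ≠ 0) (hn : n ≠ 0)
    (hmn : m ^ 2 ≠ n ^ 2) : (EE p m n + 2) ^ 2 ≤ 4 * (p : ℤ) := by
  have h4 := EE_add p h2 hm hn
  have h40 := four_ne p h2
  have h5 : (4 : ZMod p) * m ^ 2 ≠ 4 * n ^ 2 := fun h => hmn (mul_left_cancel₀ h40 h)
  have h6 := corr p h2 h5
  have h7 := cubic p h2 h3 (mul_ne_zero h40 (pow_ne_zero 2 hm)) (mul_ne_zero h40 (pow_ne_zero 2 hn)) h5
  simp only [add_mul, one_mul, Finset.sum_add_distrib] at h4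
  rw [h6] at h4
  have h8 : EE p m n + 2 = ∑ w : ZMod p, rho p w *
      (rho p (w - 4 * m ^ 2) * rho p (w - 4 * n ^ 2)) := by linarith
  rw [h8]
  exact h7

theorem EE_eq (h2 : p ≠ 2) {m : ZMod p} (hm : m ≠ 0) : EE p m m = (p : ℤ) - 3 := by
  have h4 := EE_add p h2 hm hm
  have h5 : ∑ w : ZMod p, (rho p w + 1) * (rho p (w - 4 * m ^ 2) * rho p (w - 4 * m ^ 2)) =
      ∑ w ∈ (Finset.univ : Finset (ZMod p)).erase (4 * m ^ 2), (rho p w + 1) := by
    rw [← Finset.sum_erase (Finset.univ : Finset (ZMod p)) (a := 4 * m ^ 2)]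
    · refine Finset.sum_congr rfl fun w hw => ?_
      rw [rho_mul_self p (sub_ne_zero.2 (Finset.ne_of_mem_erase hw)), mul_one]
    · rw [sub_self, rho_zero]
      ring
  have h6 := Finset.sum_erase_add (Finset.univ : Finset (ZMod p)) (fun w => rho p w + 1)
    (Finset.mem_univ (4 * m ^ 2))
  have h7 : ∑ w : ZMod p, (rho p w + 1) = p := by
    rw [Finset.sum_add_distrib, rho_sum p h2, Finset.sum_const, Finset.card_univ, ZMod.card]
    simp
  have h8 : rho p (4 * m ^ 2) = 1 := by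
    have h9 : (4 : ZMod p) * m ^ 2 = (2 * m) ^ 2 := by ring
    rw [h9, rho_sq p (mul_ne_zero (two_ne p h2) hm)]
  rw [h5] at h4
  rw [h7] at h6
  simp only [h8] at h6
  linarith

theorem TT_one (h2 : p ≠ 2) : ‖TT p (1 : DirichletCharacter ℂ p)‖ ≤ 2 := by
  have h4 : TT p (1 : DirichletCharacter ℂ p) = (((-1 - rho p (-4) : ℤ)) : ℂ) := by
    have h5 : ∑ t : ZMod p, rho p (t ^ 2 - 4) = -1 := by
      have h6 : (2 : ZMod p) ≠ -2 := by
        intro h
        apply four_ne p h2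
        linear_combination h
      rw [← corr p h2 h6]
      refine Finset.sum_congr rfl fun t _ => ?_
      rw [← map_mul]
      congr 1
      ring
    have h7 := Finset.sum_erase_add (Finset.univ : Finset (ZMod p)) (fun t => rho p (t ^ 2 - 4))
      (Finset.mem_univ 0)
    rw [h5] at h7
    have h8 : ((0 : ZMod p) ^ 2 - 4) = -4 := by ring
    simp only [h8] at h7
    have h9 : (-1 - rho p (-4) : ℤ) = ∑ t ∈ (Finset.univ : Finset (ZMod p)).erase 0,
        rho p (t ^ 2 - 4) := by linarith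
    rw [h9]
    unfold TT
    push_cast
    rw [← Finset.sum_erase (Finset.univ : Finset (ZMod p)) (a := 0)]
    · refine Finset.sum_congr rfl fun t ht => ?_
      have h10 : IsUnit t := isUnit_iff_ne_zero.2 (Finset.ne_of_mem_erase ht)
      rw [MulChar.one_apply h10, mul_one]
    · rw [MulChar.map_nonunit (1 : DirichletCharacter ℂ p) not_isUnit_zero, mul_zero]
  rw [h4, Complex.norm_intCast]
  have h5 := abs_le.1 (rho_abs p (-4))
  have h6 : |(-1 - rho p (-4) : ℤ)| ≤ 2 := by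
    rw [abs_le]
    constructor <;> linarith [h5.1, h5.2]
  exact_mod_cast h6

end Pool.Agent.Lib.MP_5d8e72_nt
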